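import Pool.Agent.K3h61.CA.Reg
import Pool.Agent.K3h51.CA.BrickD
import Pool.Agent.K3h82.CA.E

/-!
# Clock auctions: the hard instance in terms of levels
-/

namespace K3h61.CA

open Finset

lemma bdd_opt {N : Type} (F : Finset (Finset N)) (v : N → ℝ) :
    BddAbove (Set.range (fun S : {S : Finset N // S ∈ F} => ∑ i ∈ S.1, v i)) :=
  (Set.finite_range _).bddAbove

lemma le_opt {N : Type} {F : Finset (Finset N)} (v : N → ℝ) {S : Finset N} (hS : S ∈ F) :
    ∑ i ∈ S, v i ≤ opt F v :=
  le_ciSup (bdd_opt F v) (⟨S, hS⟩ : {S : Finset N // S ∈ F})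

lemma opt_nonneg {N : Type} {F : Finset (Finset N)} (v : N → ℝ) (h0 : ∅ ∈ F) :
    0 ≤ opt F v := by
  simpa using le_opt v h0

section
variable {N : Type} [Fintype N]

lemma step_fixed (A : ClockAuction N) (v : N → ℝ) {H : List (Finset N)}
    (h : A.next H = none) : A.step v H = H := by
  unfold ClockAuction.step; rw [h]

lemma hist_stable (A : ClockAuction N) (v : N → ℝ) {t s : ℕ} (h : A.next (A.hist v t) = none)
    (hts : t ≤ s) : A.hist v s = A.hist v t := by
  obtain ⟨k, rfl⟩ := Nat.exists_eq_add_of_le hts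
  unfold ClockAuction.hist at *
  rw [Nat.add_comm, Function.iterate_add_apply]
  exact Function.iterate_fixed (step_fixed A v h) k

lemma served_eq (A : ClockAuction N) (v : N → ℝ) {t : ℕ} (h : A.next (A.hist v t) = none) :
    A.served v = (A.hist v t).headD ∅ := by
  classical
  have hs : A.Stops v := ⟨t, h⟩
  unfold ClockAuction.served
  rw [dif_pos hs]
  have h1 : A.next (A.hist v (Nat.find hs)) = none := Nat.find_spec hs
  rw [hist_stable A v h1 (Nat.find_min' hs h)]

end

theorem core (T : ℕ) (hT : 1 ≤ T) : ∃ (n B : ℕ) (F : Finset (Finset (Fin n))),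
    2 ≤ B ∧ ∅ ∈ F ∧ (∀ S ∈ F, ∀ S' ⊆ S, S' ∈ F) ∧
    (∀ A : ClockAuction (Fin n),
      (∀ d ∈ Fintype.piFinset (fun _ : Fin n => range (T + 1)), A.ValidAt F (vals T B d)) →
      ∑ d ∈ Fintype.piFinset (fun _ : Fin n => range (T + 1)),
        wt T B d * A.welfare (vals T B d) ≤ 9 * (B : ℝ) ^ (T + 1)) ∧
    (T : ℝ) * (B : ℝ) ^ (T + 1) / 8 ≤
      ∑ d ∈ Fintype.piFinset (fun _ : Fin n => range (T + 1)),
        wt T B d * opt F (vals T B d) := by
  classical
  obtain ⟨B, hBig⟩ := Pool.Agent.K3h82.CA.t_E T hT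
  set ε : ℝ := 1 / (100 * (T : ℝ)) with hε
  have hT1 : (1 : ℝ) ≤ T := by exact_mod_cast hT
  have hBT := hBig.BlT
  have hBr : (2 : ℝ) ≤ B := by nlinarith
  have hB2 : 2 ≤ B := by exact_mod_cast hBr
  have hB : 1 ≤ B := by omega
  have hcard : Fintype.card (Fin (nn T B 0)) = nn T B 0 := Fintype.card_fin _
  obtain ⟨R, hR⟩ := exists_reg (N := Fin (nn T B 0)) hBig hcard
  have hn0 : 0 < nn T B 0 := by unfold nn; positivity
  haveI : Nonempty (Fin (nn T B 0)) := ⟨⟨0, hn0⟩⟩
  let F : Finset (Finset (Fin (nn T B 0))) :=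
    univ.filter (fun S => ∃ q : PT (Fin (nn T B 0)) (mu B) T, S ⊆ WW R 0 T q)
  have hne : ∀ k, Nonempty (PT (Fin (nn T B 0)) (mu B) k) := by
    intro k
    induction k with
    | zero => exact ⟨()⟩
    | succ k ih =>
      obtain ⟨p⟩ := ih
      exact ⟨(p, fun _ => Classical.arbitrary _)⟩
  have hF0 : ∅ ∈ F := by
    obtain ⟨q⟩ := hne T
    simp only [F, mem_filter, mem_univ, true_and]
    exact ⟨q, empty_subset _⟩
  have hconsnil : cons T ([] : List (Fin (nn T B 0) × Bool)) =
      Fintype.piFinset (fun _ : Fin (nn T B 0) => range (T + 1)) := by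
    unfold cons
    have : Cs T ([] : List (Fin (nn T B 0) × Bool)) =
        fun _ : Fin (nn T B 0) => range (T + 1) := by
      funext i
      unfold Cs
      rw [if_neg List.not_mem_nil]; rfl
    rw [this]
  refine ⟨nn T B 0, B, F, hB2, hF0, ?_, ?_, ?_⟩
  · intro S hS S' hS'
    simp only [F, mem_filter, mem_univ, true_and] at *
    obtain ⟨q, hq⟩ := hS
    exact ⟨q, hS'.trans hq⟩
  · intro A hA
    obtain ⟨V, hV0, hV1, hV2⟩ := exists_V hBig hcard hR
    -- a uniform stopping time
    have hstop : ∀ d ∈ Fintype.piFinset (fun _ : Fin (nn T B 0) => range (T + 1)),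
        ∃ t, A.next (A.hist (vals T B d) t) = none := fun d hd => (hA d hd).1
    choose! τ hτ using hstop
    set M := (Fintype.piFinset (fun _ : Fin (nn T B 0) => range (T + 1))).sup τ with hM
    have hMd : ∀ d ∈ Fintype.piFinset (fun _ : Fin (nn T B 0) => range (T + 1)),
        A.served (vals T B d) = (((A.step (vals T B d))^[M] [univ]).headD ∅) := by
      intro d hd
      rw [served_eq A _ (hτ d hd)]
      have h1 : τ d ≤ M := le_sup (f := τ) hd
      have h2 := hist_stable A (vals T B d) (hτ d hd) h1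
      unfold ClockAuction.hist at *
      rw [h2]
    have hg := game hB2 F hF0 V hV1 (by
      intro h hv S hS hal
      simp only [F, mem_filter, mem_univ, true_and] at hS
      obtain ⟨q, hq⟩ := hS
      exact hV2 h hv q S hq hal) A M [] [univ] trivial (by simp)
    rw [Pr_nil hB, one_mul, hconsnil] at hg
    refine le_trans (le_of_eq ?_) (hg.trans hV0)
    apply sum_congr rfl
    intro d hd
    congr 1
    unfold pay ClockAuction.welfare
    rw [← hMd d hd, if_pos (hA d hd).2]
    rfl
  · have hD := K3h51.CA.t_D (Fin (nn T B 0)) T B ε R hBig hcard hR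
      ((Fintype.piFinset (fun _ : Fin (nn T B 0) => range (T + 1))).filter
        (fun d => (T : ℝ) * (B : ℝ) ^ (T + 1) / 4 ≤ opt F (vals T B d))) (by
        intro d hd hex
        obtain ⟨q, S, hS, hval⟩ := hex
        rw [mem_filter]
        refine ⟨hd, hval.trans ?_⟩
        have hSF : S ∈ F := by
          simp only [F, mem_filter, mem_univ, true_and]
          exact ⟨q, hS⟩
        exact le_opt (vals T B d) hSF)
    set G := ((Fintype.piFinset (fun _ : Fin (nn T B 0) => range (T + 1))).filter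
        (fun d => (T : ℝ) * (B : ℝ) ^ (T + 1) / 4 ≤ opt F (vals T B d))).filter
        (fun d => d ∈ Fintype.piFinset (fun _ : Fin (nn T B 0) => range (T + 1))) with hG
    have hGs : G ⊆ Fintype.piFinset (fun _ : Fin (nn T B 0) => range (T + 1)) := by
      intro d hd; rw [hG, mem_filter] at hd; exact hd.2
    have hwt : ∀ d ∈ Fintype.piFinset (fun _ : Fin (nn T B 0) => range (T + 1)),
        0 ≤ wt T B d := by
      intro d hd
      apply wt_nonneg hB (h := [])
      rw [hconsnil]; exact hd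
    have h1 : ∑ d ∈ G, wt T B d * ((T : ℝ) * (B : ℝ) ^ (T + 1) / 4) ≤
        ∑ d ∈ Fintype.piFinset (fun _ : Fin (nn T B 0) => range (T + 1)),
        wt T B d * opt F (vals T B d) := by
      refine le_trans (sum_le_sum ?_) (sum_le_sum_of_subset_of_nonneg hGs ?_)
      · intro d hd
        apply mul_le_mul_of_nonneg_left _ (hwt d (hGs hd))
        rw [hG, mem_filter, mem_filter] at hd
        exact hd.1.2
      · intro d hd _
        exact mul_nonneg (hwt d hd) (opt_nonneg _ hF0)
    rw [← sum_mul] at h1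
    have h2 : (1 / 2 : ℝ) ≤ ∑ d ∈ G, wt T B d := hD
    have h3 : (0 : ℝ) ≤ (T : ℝ) * (B : ℝ) ^ (T + 1) / 4 := by positivity
    have h4 := mul_le_mul_of_nonneg_right h2 h3
    linarith

end K3h61.CA
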