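import Mathlib

/-!
# Clock auctions (MP_9cf523_lc): definitions shared by the bricks

Depth levels are `0, …, T`; a buyer of level `d` has value `av T B d = B ^ (T - d)`.
Heads at depth `k` have capacity `mu B k = B ^ (k+1)`; regions at depth `k` have size
`nn T B k = B ^ ((T+1) * 2 ^ (T-k))` (so `nn k = nn (k+1) ^ 2` for `k < T`).
-/

namespace K3h61.CA

open Finset

/-- capacity of the heads at depth `k` -/
def mu (B k : ℕ) : ℕ := B ^ (k + 1)

/-- size of the regions at depth `k` -/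
def nn (T B k : ℕ) : ℕ := B ^ ((T + 1) * 2 ^ (T - k))

/-- conditional probability that a buyer of level at most `k+1` has level at most `k` -/
noncomputable def zz (T B k : ℕ) : ℝ := 1 / ((B : ℝ) * (nn T B (k + 1) : ℝ))

/-- probability that the level is at most `k` -/
noncomputable def QQ (T B k : ℕ) : ℝ := (mu B k : ℝ) / (nn T B k : ℝ)

/-- probability that the level is exactly `k` -/
noncomputable def om (T B k : ℕ) : ℝ := if k = 0 then QQ T B 0 else QQ T B k - QQ T B (k - 1)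

/-- value of a buyer of level `k` -/
def av (T B k : ℕ) : ℕ := B ^ (T - k)

/-- nodes of depth `k`: a sequence of `k` coded heads -/
def PT (N : Type) (m : ℕ → ℕ) : ℕ → Type
  | 0 => Unit
  | k + 1 => PT N m k × (Fin (m k) → N)

noncomputable def fintypePT (N : Type) [Fintype N] (m : ℕ → ℕ) : ∀ k, Fintype (PT N m k)
  | 0 => inferInstanceAs (Fintype Unit)
  | k + 1 => by
      classical
      haveI := fintypePT N m k
      exact inferInstanceAs (Fintype (PT N m k × (Fin (m k) → N)))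

noncomputable instance (N : Type) [Fintype N] (m : ℕ → ℕ) (k : ℕ) : Fintype (PT N m k) :=
  fintypePT N m k

/-- the parent of a node -/
def par {N : Type} {m : ℕ → ℕ} {k : ℕ} (q : PT N m (k + 1)) : PT N m k := q.1

/-- the last head code of a node -/
def lst {N : Type} {m : ℕ → ℕ} {k : ℕ} (q : PT N m (k + 1)) : Fin (m k) → N := q.2

/-- the child of `p` with head code `h` -/
def child {N : Type} {m : ℕ → ℕ} {k : ℕ} (p : PT N m k) (h : Fin (m k) → N) : PT N m (k + 1) :=
  (p, h)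

section
variable {N : Type} [DecidableEq N] {m : ℕ → ℕ}

/-- the head of a node: the coded set, cut down to the region of the parent -/
def hd (R : ∀ k, PT N m k → Finset N) (k : ℕ) (q : PT N m (k + 1)) : Finset N :=
  (univ.image (lst q)) ∩ R k (par q)

/-- the union of the heads at the depths `l` with `k ≤ l < j` on the way to a node of depth `j` -/
def HU (R : ∀ k, PT N m k → Finset N) (k : ℕ) : ∀ j, PT N m j → Finset N
  | 0, _ => ∅
  | j + 1, q => if k ≤ j then HU R k j (par q) ∪ hd R j q else ∅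

/-- heads from depth `k` on, together with the region of the node -/
def WW (R : ∀ k, PT N m k → Finset N) (k j : ℕ) (q : PT N m j) : Finset N :=
  HU R k j q ∪ R j q

end

section
variable {N : Type} [DecidableEq N] [Fintype N]

/-- `q` is under-dense for `Z` -/
def UD (T B : ℕ) (ε : ℝ) (R : ∀ k, PT N (mu B) k → Finset N) (k : ℕ)
    (q : PT N (mu B) (k + 1)) (Z : Finset N) : Prop :=
  ((Z ∩ R (k + 1) q).card : ℝ) <
    (1 - ε) * ((Z ∩ R k (par q)).card : ℝ) / (nn T B (k + 1) : ℝ) - ε * (mu B (k + 1) : ℝ)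

open Classical in
/-- the region structure -/
structure IsReg (T B : ℕ) (ε : ℝ) (R : ∀ k, PT N (mu B) k → Finset N) : Prop where
  root : ∀ p, R 0 p = univ
  card : ∀ k ≤ T, ∀ p, (R k p).card = nn T B k
  sub : ∀ k < T, ∀ q : PT N (mu B) (k + 1), R (k + 1) q ⊆ R k (par q)
  samp : ∀ k < T, ∀ Z : Finset N,
    (univ.filter (fun q : PT N (mu B) (k + 1) => UD T B ε R k q Z)).card ≤ Fintype.card N

end

/-- numerical conditions on `B` -/
structure Big (T B : ℕ) (ε : ℝ) : Prop where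
  one : 1 ≤ T
  epos : 0 < ε
  eT : 100 * ε * (T : ℝ) ≤ 1
  Blarge : 8 / ε ≤ (B : ℝ)
  BlT : 100 * (T : ℝ) ≤ (B : ℝ)
  nodes : ∀ k ≤ T, ((nn T B 0 : ℝ)) ^ (∑ j ∈ range k, mu B j) *
    Real.exp (-(ε ^ 2 * (mu B k : ℝ))) ≤ Real.exp (-(ε ^ 2 * (B : ℝ) / 2))
  small3 : 3 * Real.exp (-(ε ^ 2 * (B : ℝ) / 2)) ≤ 1
  smallT : (T : ℝ) * Real.exp (-(ε ^ 2 * (B : ℝ) / 2)) ≤ 1 / 2
  bad : (T : ℝ) * Real.exp (-(ε ^ 2 * (B : ℝ) / 2)) +
    ((nn T B 0 : ℝ) * T) * ((T : ℝ) * T * (nn T B 0 : ℝ) * Real.exp (-(ε * (B : ℝ) / 2)))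
      ≤ 1 / (4 * (B : ℝ) ^ T)

end K3h61.CA
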