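import Mathlib

/-!
# Clock auctions: the model

A deterministic clock auction is given by a rule that reads the history of active sets (the most
recent one first; this is exactly the information contained in the drop-outs) and either stops
(`none`) or announces the next vector of prices. An active buyer `i` stays active if and only if
her price is at most her value. Prices are not required to be monotone, so the auctions with
weakly increasing prices are a special case.
-/

namespace K3h61.CA

open Finset

/-- a deterministic clock auction for the set of buyers `N` -/
structure ClockAuction (N : Type) where
  /-- history of active sets (most recent first) ↦ stop, or the next price vector -/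
  next : List (Finset N) → Option (N → ℝ)

namespace ClockAuction

variable {N : Type}

/-- one round at the value profile `v`: if the auction does not stop, the buyers whose value is
below their price drop out -/
noncomputable def step (A : ClockAuction N) (v : N → ℝ) (H : List (Finset N)) :
    List (Finset N) :=
  match A.next H with
  | none => H
  | some π => ((H.headD ∅).filter (fun i => π i ≤ v i)) :: H

/-- the history of active sets after `t` rounds; at the start all buyers are active -/
noncomputable def hist [Fintype N] (A : ClockAuction N) (v : N → ℝ) (t : ℕ) :
    List (Finset N) := (A.step v)^[t] [univ]

/-- the auction stops at the profile `v` -/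
def Stops [Fintype N] (A : ClockAuction N) (v : N → ℝ) : Prop :=
  ∃ t, A.next (A.hist v t) = none

open Classical in
/-- the set of served buyers: the active set at the stopping time -/
noncomputable def served [Fintype N] (A : ClockAuction N) (v : N → ℝ) : Finset N :=
  if h : A.Stops v then (A.hist v (Nat.find h)).headD ∅ else ∅

/-- at the profile `v` the auction stops and the served set is feasible -/
def ValidAt [Fintype N] (A : ClockAuction N) (F : Finset (Finset N)) (v : N → ℝ) : Prop :=
  A.Stops v ∧ A.served v ∈ F

/-- the welfare of the auction at the profile `v` -/
noncomputable def welfare [Fintype N] (A : ClockAuction N) (v : N → ℝ) : ℝ :=
  ∑ i ∈ A.served v, v i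

end ClockAuction

/-- the optimum `OPT(v)`: the largest total value of a feasible set -/
noncomputable def opt {N : Type} (F : Finset (Finset N)) (v : N → ℝ) : ℝ :=
  ⨆ S : {S : Finset N // S ∈ F}, ∑ i ∈ S.1, v i

end K3h61.CA
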