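import Pool.Agent.K3h61.CA.Pot2
import Pool.Agent.K3h61.CA.Model

/-!
# Clock auctions: every clock auction is dominated by the majorant
-/

namespace K3h61.CA

open Finset

section
variable {T B : ℕ}

lemma QQ_nonneg (k : ℕ) : 0 ≤ QQ T B k := by unfold QQ; positivity

lemma QQ_pos (hB : 1 ≤ B) (k : ℕ) : 0 < QQ T B k := by unfold QQ mu nn; positivity

lemma QQ_T (hB : 1 ≤ B) : QQ T B T = 1 := by
  unfold QQ mu nn
  have : (0 : ℝ) < (B : ℝ) ^ (T + 1) := by positivity
  simp only [Nat.sub_self, pow_zero, mul_one]
  push_cast
  exact div_self this.ne'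

lemma nn_sq {k : ℕ} (hk : k < T) : nn T B k = nn T B (k + 1) * nn T B (k + 1) := by
  unfold nn
  rw [← pow_add]
  congr 1
  have : T - k = (T - (k + 1)) + 1 := by omega
  rw [this, pow_succ]; ring

lemma QQ_pred (hB : 1 ≤ B) {k : ℕ} (hk : k < T) : QQ T B k = zz T B k * QQ T B (k + 1) := by
  unfold QQ zz
  rw [nn_sq hk]
  have h1 : (mu B (k + 1) : ℝ) = B * mu B k := by unfold mu; push_cast; ring
  rw [h1]
  have h2 : (0 : ℝ) < nn T B (k + 1) := by unfold nn; positivity
  have h3 : (0 : ℝ) < B := by exact_mod_cast hB
  push_cast
  field_simp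

lemma om_nonneg (hB : 1 ≤ B) {k : ℕ} (hk : k ≤ T) : 0 ≤ om T B k := by
  unfold om
  split_ifs with h0
  · exact QQ_nonneg 0
  · obtain ⟨j, rfl⟩ := Nat.exists_eq_succ_of_ne_zero h0
    have h1 := QQ_pred (T := T) hB (show j < T by omega)
    have h2 := zz_le_one (T := T) hB j
    have h3 := QQ_nonneg (T := T) (B := B) (j + 1)
    simp only [Nat.succ_eq_add_one, Nat.add_sub_cancel]
    rw [h1]; nlinarith

lemma sum_om (k : ℕ) : ∑ x ∈ range (k + 1), om T B x = QQ T B k := by
  induction k with
  | zero => simp [om]
  | succ k ih =>
    rw [sum_range_succ, ih]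
    unfold om
    rw [if_neg (by omega)]
    simp

lemma sum_om_av (hB : 2 ≤ B) {k : ℕ} (hk : k ≤ T) :
    ∑ x ∈ range (k + 1), om T B x * (av T B x : ℝ) ≤ 2 * (av T B k : ℝ) * QQ T B k := by
  induction k with
  | zero =>
    simp only [zero_add, range_one, sum_singleton]
    have h1 : om T B 0 = QQ T B 0 := by simp [om]
    rw [h1]
    have := QQ_nonneg (T := T) (B := B) 0
    have h2 : (0 : ℝ) ≤ av T B 0 := by positivity
    nlinarith [mul_nonneg this h2]
  | succ k ih =>
    rw [sum_range_succ]
    have ih := ih (by omega)
    have h1 : om T B (k + 1) = QQ T B (k + 1) - QQ T B k := by simp [om]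
    rw [h1]
    have h2 := QQ_pred (T := T) (B := B) (by omega) (show k < T by omega)
    have h3 : (av T B k : ℝ) = B * av T B (k + 1) := by
      unfold av
      have : T - k = (T - (k + 1)) + 1 := by omega
      rw [this, pow_succ]; push_cast; ring
    have h4 : (2 : ℝ) ≤ nn T B (k + 1) := by
      have h5 := nn_ge (T := T) (show 1 ≤ B by omega) (k + 1)
      have h6 : 2 ≤ B ^ (T + 1) := by
        calc 2 ≤ B := hB
          _ = B ^ 1 := by ring
          _ ≤ B ^ (T + 1) := Nat.pow_le_pow_right (by omega) (by omega)
      exact_mod_cast h6.trans h5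
    have h5 : (0 : ℝ) < B := by
      have : 0 < B := by omega
      exact_mod_cast this
    have h6 : (B : ℝ) * zz T B k * 2 ≤ 1 := by
      unfold zz
      have : (B : ℝ) * (1 / ((B : ℝ) * (nn T B (k + 1) : ℝ))) * 2 = 2 / nn T B (k + 1) := by
        field_simp
      rw [this, div_le_one (by linarith)]; exact h4
    have h7 := QQ_nonneg (T := T) (B := B) (k + 1)
    have h8 : (0 : ℝ) ≤ av T B (k + 1) := by positivity
    have h9 : 2 * (av T B k : ℝ) * QQ T B k ≤ av T B (k + 1) * QQ T B (k + 1) := by
      rw [h3, h2]
      have : 2 * ((B : ℝ) * av T B (k + 1)) * (zz T B k * QQ T B (k + 1)) =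
          ((B : ℝ) * zz T B k * 2) * (av T B (k + 1) * QQ T B (k + 1)) := by ring
      rw [this]
      exact mul_le_of_le_one_left (mul_nonneg h8 h7) h6
    have h10 : 0 ≤ QQ T B k * av T B (k + 1) := mul_nonneg (QQ_nonneg k) h8
    nlinarith

end

section
variable {N : Type} [DecidableEq N] [Fintype N] {T B : ℕ}

/-- levels that are possible for buyer `i` after the history `h` -/
def Cs (T : ℕ) (h : List (N × Bool)) (i : N) : Finset ℕ :=
  if (i, false) ∈ h then {cur T h i} else range (cur T h i + 1)

/-- profiles consistent with the history -/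
def cons (T : ℕ) (h : List (N × Bool)) : Finset (N → ℕ) := Fintype.piFinset (Cs T h)

/-- weight of a profile -/
noncomputable def wt (T B : ℕ) (d : N → ℕ) : ℝ := ∏ i, om T B (d i)

lemma Cs_sub (h : List (N × Bool)) (i : N) : Cs T h i ⊆ range (T + 1) := by
  unfold Cs
  have := cur_le T h i
  split_ifs
  · intro x hx; rw [mem_singleton] at hx; rw [mem_range]; omega
  · intro x hx; rw [mem_range] at *; omega

lemma wt_nonneg (hB : 1 ≤ B) {h : List (N × Bool)} {d : N → ℕ} (hd : d ∈ cons T h) :
    0 ≤ wt T B d := by
  unfold wt
  apply prod_nonneg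
  intro i _
  apply om_nonneg hB
  unfold cons at hd
  rw [Fintype.mem_piFinset] at hd
  have := Cs_sub h i (hd i)
  rw [mem_range] at this; omega

/-- probability of the history -/
noncomputable def Pr (T B : ℕ) (h : List (N × Bool)) : ℝ := ∑ d ∈ cons T h, wt T B d

lemma Pr_eq (h : List (N × Bool)) : Pr T B h = ∏ i, ∑ x ∈ Cs T h i, om T B x := by
  unfold Pr cons wt
  rw [prod_univ_sum]

lemma Pr_nonneg (hB : 1 ≤ B) (h : List (N × Bool)) : 0 ≤ Pr T B h :=
  sum_nonneg (fun _ hd => wt_nonneg hB hd)

lemma Pr_nil (hB : 1 ≤ B) : Pr T B ([] : List (N × Bool)) = 1 := by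
  rw [Pr_eq]
  apply prod_eq_one
  intro i _
  unfold Cs
  simp only [List.not_mem_nil, if_false, cur_nil]
  rw [sum_om, QQ_T hB]

lemma Cs_true_self {h : List (N × Bool)} {i : N} (hal : (i, false) ∉ h) (h0 : 0 < cur T h i) :
    Cs T ((i, true) :: h) i = range (cur T h i) := by
  unfold Cs
  rw [if_neg, cur_true_self]
  · congr 1; omega
  · rw [List.mem_cons]; rintro (h1 | h1)
    · exact absurd (Prod.mk.inj h1).2 (by decide)
    · exact hal h1

lemma Cs_false_self {h : List (N × Bool)} {i : N} :
    Cs T ((i, false) :: h) i = {cur T h i} := by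
  unfold Cs
  rw [if_pos (by simp), cur_false]

lemma Cs_ne {h : List (N × Bool)} {i j : N} (b : Bool) (hij : i ≠ j) :
    Cs T ((i, b) :: h) j = Cs T h j := by
  unfold Cs
  rw [cur_cons_ne T h b hij]
  have h1 : (j, false) ∈ (i, b) :: h ↔ (j, false) ∈ h := by
    rw [List.mem_cons]
    constructor
    · rintro (h1 | h1)
      · exact absurd (Prod.mk.inj h1).1.symm hij
      · exact h1
    · intro h1; right; exact h1
  simp only [h1]

lemma Cs_alive {h : List (N × Bool)} {i : N} (hal : (i, false) ∉ h) :
    Cs T h i = range (cur T h i + 1) := by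
  unfold Cs; rw [if_neg hal]

lemma cons_true {h : List (N × Bool)} {i : N} (hal : (i, false) ∉ h) (h0 : 0 < cur T h i) :
    cons T ((i, true) :: h) = (cons T h).filter (fun d => ¬ d i = cur T h i) := by
  ext d
  unfold cons
  rw [mem_filter, Fintype.mem_piFinset, Fintype.mem_piFinset]
  constructor
  · intro hd
    have hi := hd i
    rw [Cs_true_self hal h0, mem_range] at hi
    refine ⟨fun j => ?_, by omega⟩
    by_cases hij : i = j
    · subst hij; rw [Cs_alive hal, mem_range]; omega
    · rw [← Cs_ne true hij]; exact hd j
  · rintro ⟨hd, hi⟩ j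
    by_cases hij : i = j
    · subst hij
      have := hd i
      rw [Cs_alive hal, mem_range] at this
      rw [Cs_true_self hal h0, mem_range]; omega
    · rw [Cs_ne true hij]; exact hd j

lemma cons_false {h : List (N × Bool)} {i : N} (hal : (i, false) ∉ h) :
    cons T ((i, false) :: h) = (cons T h).filter (fun d => d i = cur T h i) := by
  ext d
  unfold cons
  rw [mem_filter, Fintype.mem_piFinset, Fintype.mem_piFinset]
  constructor
  · intro hd
    have hi := hd i
    rw [Cs_false_self, mem_singleton] at hi
    refine ⟨fun j => ?_, hi⟩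
    by_cases hij : i = j
    · subst hij; rw [Cs_alive hal, mem_range]; omega
    · rw [← Cs_ne false hij]; exact hd j
  · rintro ⟨hd, hi⟩ j
    by_cases hij : i = j
    · subst hij
      rw [Cs_false_self, mem_singleton]; exact hi
    · rw [Cs_ne false hij]; exact hd j

lemma sum_split {h : List (N × Bool)} {i : N} (hal : (i, false) ∉ h) (h0 : 0 < cur T h i)
    (f : (N → ℕ) → ℝ) :
    ∑ d ∈ cons T h, f d =
      ∑ d ∈ cons T ((i, true) :: h), f d + ∑ d ∈ cons T ((i, false) :: h), f d := by
  rw [cons_true hal h0, cons_false hal, add_comm]
  rw [sum_filter_add_sum_filter_not]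

lemma Pr_true (hB : 1 ≤ B) {h : List (N × Bool)} {i : N} (hal : (i, false) ∉ h)
    (h0 : 0 < cur T h i) : Pr T B ((i, true) :: h) = zz T B (cur T h i - 1) * Pr T B h := by
  rw [Pr_eq, Pr_eq, ← mul_prod_erase univ _ (mem_univ i), ← mul_prod_erase univ
    (fun j => ∑ x ∈ Cs T h j, om T B x) (mem_univ i)]
  have h1 : ∏ x ∈ univ.erase i, ∑ x_1 ∈ Cs T ((i, true) :: h) x, om T B x_1 =
      ∏ x ∈ univ.erase i, ∑ x_1 ∈ Cs T h x, om T B x_1 := by
    apply prod_congr rfl
    intro j hj
    rw [Cs_ne true (ne_of_mem_erase hj).symm]
  rw [h1, Cs_true_self hal h0, Cs_alive hal, ← mul_assoc]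
  congr 1
  obtain ⟨c, hc⟩ := Nat.exists_eq_succ_of_ne_zero h0.ne'
  have hcT := cur_le T h i
  rw [hc, Nat.succ_eq_add_one, sum_om, sum_om, Nat.add_sub_cancel]
  exact QQ_pred hB (by omega)

lemma Pr_false (hB : 1 ≤ B) {h : List (N × Bool)} {i : N} (hal : (i, false) ∉ h)
    (h0 : 0 < cur T h i) :
    Pr T B ((i, false) :: h) = (1 - zz T B (cur T h i - 1)) * Pr T B h := by
  have h1 := sum_split hal h0 (wt T B)
  have h2 := Pr_true hB hal h0
  unfold Pr at *
  linarith

/-- the conditional expectation of the value of a living buyer -/
lemma exp_val (hB : 2 ≤ B) {h : List (N × Bool)} {i : N} (hal : (i, false) ∉ h) :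
    ∑ d ∈ cons T h, wt T B d * (av T B (d i) : ℝ) ≤
      Pr T B h * (2 * (av T B (cur T h i) : ℝ)) := by
  have h1 : ∀ d : N → ℕ, wt T B d * (av T B (d i) : ℝ) =
      ∏ j, (om T B (d j) * if j = i then (av T B (d j) : ℝ) else 1) := by
    intro d
    unfold wt
    rw [prod_mul_distrib]
    congr 1
    rw [prod_ite_eq' univ i (fun j => (av T B (d j) : ℝ)), if_pos (mem_univ i)]
  simp only [h1]
  unfold cons
  rw [← prod_univ_sum (t := Cs T h)
    (f := fun j x => om T B x * if j = i then (av T B x : ℝ) else 1), Pr_eq,
    ← mul_prod_erase univ _ (mem_univ i), ← mul_prod_erase univ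
    (fun j => ∑ x ∈ Cs T h j, om T B x) (mem_univ i)]
  have h2 : ∏ x ∈ univ.erase i, ∑ x_1 ∈ Cs T h x,
      (om T B x_1 * if x = i then (av T B x_1 : ℝ) else 1) =
      ∏ x ∈ univ.erase i, ∑ x_1 ∈ Cs T h x, om T B x_1 := by
    apply prod_congr rfl
    intro j hj
    simp [ne_of_mem_erase hj]
  rw [h2]
  simp only [if_true]
  have h3 : 0 ≤ ∏ x ∈ univ.erase i, ∑ x_1 ∈ Cs T h x, om T B x_1 := by
    apply prod_nonneg
    intro j _
    apply sum_nonneg
    intro x hx
    apply om_nonneg (by omega)
    have := Cs_sub h j hx
    rw [mem_range] at this; omega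
  rw [Cs_alive hal, sum_om]
  have h4 := sum_om_av hB (cur_le T h i)
  calc _ ≤ (2 * (av T B (cur T h i) : ℝ) * QQ T B (cur T h i)) *
        ∏ x ∈ univ.erase i, ∑ x_1 ∈ Cs T h x, om T B x_1 :=
        mul_le_mul_of_nonneg_right h4 h3
    _ = _ := by ring

/-- payoff of the outcome `S` at the levels `d` -/
noncomputable def pay [DecidableEq (Finset N)] (T B : ℕ) (F : Finset (Finset N)) (S : Finset N)
    (d : N → ℕ) : ℝ :=
  if S ∈ F then ∑ i ∈ S, (av T B (d i) : ℝ) else 0

/-- value profile of a level profile -/
noncomputable def vals (T B : ℕ) (d : N → ℕ) : N → ℝ := fun i => (av T B (d i) : ℝ)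

theorem game (hB : 2 ≤ B) (F : Finset (Finset N)) (hF0 : ∅ ∈ F) (V : List (N × Bool) → ℝ)
    (hV1 : ∀ h i, (i, false) ∉ h → 0 < cur T h i →
        zz T B (cur T h i - 1) * V ((i, true) :: h) +
          (1 - zz T B (cur T h i - 1)) * V ((i, false) :: h) ≤ V h)
    (hV2 : ∀ h, Valid T h → ∀ A ∈ F, (∀ i ∈ A, (i, false) ∉ h) →
      2 * ∑ i ∈ A, (av T B (cur T h i) : ℝ) ≤ V h)
    (CA : ClockAuction N) :
    ∀ t (h : List (N × Bool)) (H : List (Finset N)), Valid T h →
      (∀ i ∈ H.headD ∅, (i, false) ∉ h) →
      ∑ d ∈ cons T h, wt T B d *
        pay T B F (((CA.step (vals T B d))^[t] H).headD ∅) d ≤ Pr T B h * V h := by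
  have hB1 : 1 ≤ B := by omega
  have split : ∀ (f : (N → ℕ) → ℝ) (h : List (N × Bool)) (i : N), (i, false) ∉ h →
      0 < cur T h i →
      ∑ d ∈ cons T ((i, true) :: h), f d ≤ Pr T B ((i, true) :: h) * V ((i, true) :: h) →
      ∑ d ∈ cons T ((i, false) :: h), f d ≤ Pr T B ((i, false) :: h) * V ((i, false) :: h) →
      ∑ d ∈ cons T h, f d ≤ Pr T B h * V h := by
    intro f h i hal h0 h1 h2
    rw [sum_split hal h0]
    rw [Pr_true hB1 hal h0] at h1
    rw [Pr_false hB1 hal h0] at h2
    have h3 := hV1 h i hal h0
    have h4 := Pr_nonneg (T := T) hB1 h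
    have h5 := mul_le_mul_of_nonneg_left h3 h4
    nlinarith
  intro t
  induction t with
  | zero =>
    intro h H hv hH
    simp only [Function.iterate_zero, id_eq]
    unfold pay
    split_ifs with hF
    · have h1 : ∑ d ∈ cons T h, wt T B d * ∑ i ∈ H.headD ∅, (av T B (d i) : ℝ) ≤
          Pr T B h * (2 * ∑ i ∈ H.headD ∅, (av T B (cur T h i) : ℝ)) := by
        simp only [mul_sum]
        rw [sum_comm]
        apply sum_le_sum
        intro i hi
        exact exp_val hB (hH i hi)
      refine h1.trans (mul_le_mul_of_nonneg_left ?_ (Pr_nonneg hB1 h))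
      exact hV2 h hv _ hF hH
    · simp only [mul_zero, sum_const_zero]
      apply mul_nonneg (Pr_nonneg hB1 h)
      have := hV2 h hv ∅ hF0 (by simp)
      simpa using this
  | succ t ih =>
    intro h H hv hH
    simp only [Function.iterate_succ_apply]
    cases hN : CA.next H with
    | none =>
      have hst : ∀ v, CA.step v H = H := by
        intro v; unfold ClockAuction.step; rw [hN]
      simp only [hst]
      exact ih h H hv hH
    | some π =>
      have hst : ∀ v, CA.step v H = ((H.headD ∅).filter (fun i => π i ≤ v i)) :: H := by
        intro v; unfold ClockAuction.step; rw [hN]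
      simp only [hst]
      -- inner induction
      have inner : ∀ n (h : List (N × Bool)), rem T h ≤ n → Valid T h →
          (∀ i ∈ H.headD ∅, (i, false) ∉ h ∨ ¬ (π i ≤ (av T B (cur T h i) : ℝ))) →
          ∑ d ∈ cons T h, wt T B d * pay T B F (((CA.step (vals T B d))^[t]
            (((H.headD ∅).filter (fun i => π i ≤ vals T B d i)) :: H)).headD ∅) d ≤
            Pr T B h * V h := by
        intro n
        induction n with
        | zero =>
          intro h hrem hv hinv
          by_cases hex : ∃ i ∈ H.headD ∅, (i, false) ∉ h ∧ 0 < cur T h i ∧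
              ¬ (π i ≤ (av T B (cur T h i) : ℝ))
          · obtain ⟨i, -, hal, h0, -⟩ := hex
            have := rem_step true hal h0
            omega
          · push Not at hex
            have hfil : ∀ d ∈ cons T h, (H.headD ∅).filter (fun i => π i ≤ vals T B d i) =
                (H.headD ∅).filter (fun i => π i ≤ (av T B (cur T h i) : ℝ)) := by
              intro d hd
              apply filter_congr
              intro i hi
              unfold vals
              unfold cons at hd
              rw [Fintype.mem_piFinset] at hd
              have hdi := hd i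
              by_cases hal : (i, false) ∈ h
              · unfold Cs at hdi
                rw [if_pos hal, mem_singleton] at hdi
                rw [hdi]
              · rw [Cs_alive hal, mem_range] at hdi
                have hex' := hex i hi hal
                rcases Nat.eq_zero_or_pos (cur T h i) with hz | hz
                · have : d i = cur T h i := by omega
                  rw [this]
                · have h1 := hex' hz
                  have h2 : (av T B (cur T h i) : ℝ) ≤ av T B (d i) := by
                    unfold av
                    exact_mod_cast Nat.pow_le_pow_right hB1 (by omega)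
                  exact iff_of_true (h1.trans h2) h1
            have h1 : ∑ d ∈ cons T h, wt T B d * pay T B F (((CA.step (vals T B d))^[t]
                (((H.headD ∅).filter (fun i => π i ≤ vals T B d i)) :: H)).headD ∅) d =
                ∑ d ∈ cons T h, wt T B d * pay T B F (((CA.step (vals T B d))^[t]
                (((H.headD ∅).filter (fun i => π i ≤ (av T B (cur T h i) : ℝ))) :: H)).headD ∅)
                d := by
              apply sum_congr rfl
              intro d hd
              rw [hfil d hd]
            rw [h1]
            apply ih h _ hv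
            intro i hi
            rw [List.headD_cons, mem_filter] at hi
            rcases hinv i hi.1 with h2 | h2
            · exact h2
            · exact absurd hi.2 h2
        | succ n ihn =>
          intro h hrem hv hinv
          by_cases hex : ∃ i ∈ H.headD ∅, (i, false) ∉ h ∧ 0 < cur T h i ∧
              ¬ (π i ≤ (av T B (cur T h i) : ℝ))
          · obtain ⟨i, hiH, hal, h0, hπ⟩ := hex
            apply split _ h i hal h0
            · apply ihn
              · have := rem_step true hal h0
                omega
              · exact ⟨hal, h0, hv⟩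
              · intro j hj
                by_cases hij : i = j
                · subst hij
                  left
                  rw [List.mem_cons]; rintro (h1 | h1)
                  · exact absurd (Prod.mk.inj h1).2 (by decide)
                  · exact hal h1
                · rw [cur_cons_ne T h true hij]
                  rcases hinv j hj with h1 | h1
                  · left
                    rw [List.mem_cons]; rintro (h2 | h2)
                    · exact absurd (Prod.mk.inj h2).1.symm hij
                    · exact h1 h2
                  · right; exact h1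
            · apply ihn
              · have := rem_step false hal h0
                omega
              · exact ⟨hal, h0, hv⟩
              · intro j hj
                by_cases hij : i = j
                · subst hij
                  right; rw [cur_false]; exact hπ
                · rw [cur_cons_ne T h false hij]
                  rcases hinv j hj with h1 | h1
                  · left
                    rw [List.mem_cons]; rintro (h2 | h2)
                    · exact absurd (Prod.mk.inj h2).1.symm hij
                    · exact h1 h2
                  · right; exact h1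
          · push Not at hex
            have hfil : ∀ d ∈ cons T h, (H.headD ∅).filter (fun i => π i ≤ vals T B d i) =
                (H.headD ∅).filter (fun i => π i ≤ (av T B (cur T h i) : ℝ)) := by
              intro d hd
              apply filter_congr
              intro i hi
              unfold vals
              unfold cons at hd
              rw [Fintype.mem_piFinset] at hd
              have hdi := hd i
              by_cases hal : (i, false) ∈ h
              · unfold Cs at hdi
                rw [if_pos hal, mem_singleton] at hdi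
                rw [hdi]
              · rw [Cs_alive hal, mem_range] at hdi
                have hex' := hex i hi hal
                rcases Nat.eq_zero_or_pos (cur T h i) with hz | hz
                · have : d i = cur T h i := by omega
                  rw [this]
                · have h1 := hex' hz
                  have h2 : (av T B (cur T h i) : ℝ) ≤ av T B (d i) := by
                    unfold av
                    exact_mod_cast Nat.pow_le_pow_right hB1 (by omega)
                  exact iff_of_true (h1.trans h2) h1
            have h1 : ∑ d ∈ cons T h, wt T B d * pay T B F (((CA.step (vals T B d))^[t]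
                (((H.headD ∅).filter (fun i => π i ≤ vals T B d i)) :: H)).headD ∅) d =
                ∑ d ∈ cons T h, wt T B d * pay T B F (((CA.step (vals T B d))^[t]
                (((H.headD ∅).filter (fun i => π i ≤ (av T B (cur T h i) : ℝ))) :: H)).headD ∅)
                d := by
              apply sum_congr rfl
              intro d hd
              rw [hfil d hd]
            rw [h1]
            apply ih h _ hv
            intro i hi
            rw [List.headD_cons, mem_filter] at hi
            rcases hinv i hi.1 with h2 | h2
            · exact h2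
            · exact absurd hi.2 h2
      exact inner (rem T h) h le_rfl hv (fun i hi => Or.inl (hH i hi))

end

end K3h61.CA
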