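import Pool.Agent.K3h61.CA.Defs

/-!
# Clock auctions: histories of tests
-/

namespace K3h61.CA

open Finset

section
variable {N : Type} [DecidableEq N]

/-- current level of a buyer after a history of tests (most recent test first) -/
def cur (T : ℕ) : List (N × Bool) → N → ℕ
  | [], _ => T
  | x :: h, i => if x.1 = i ∧ x.2 = true then cur T h i - 1 else cur T h i

/-- only living buyers of positive level are tested -/
def Valid (T : ℕ) : List (N × Bool) → Prop
  | [] => True
  | x :: h => (x.1, false) ∉ h ∧ 0 < cur T h x.1 ∧ Valid T h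

@[simp] lemma cur_nil (T : ℕ) (i : N) : cur T [] i = T := rfl

lemma cur_cons (T : ℕ) (x : N × Bool) (h : List (N × Bool)) (i : N) :
    cur T (x :: h) i = if x.1 = i ∧ x.2 = true then cur T h i - 1 else cur T h i := rfl

lemma cur_true_self (T : ℕ) (h : List (N × Bool)) (i : N) :
    cur T ((i, true) :: h) i = cur T h i - 1 := by simp [cur]

lemma cur_cons_ne (T : ℕ) (h : List (N × Bool)) {i j : N} (b : Bool) (hij : j ≠ i) :
    cur T ((j, b) :: h) i = cur T h i := by simp [cur, hij]

lemma cur_false (T : ℕ) (h : List (N × Bool)) (i j : N) :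
    cur T ((j, false) :: h) i = cur T h i := by simp [cur]

lemma cur_cons_le (T : ℕ) (x : N × Bool) (h : List (N × Bool)) (i : N) :
    cur T (x :: h) i ≤ cur T h i := by
  rw [cur_cons]; split_ifs <;> omega

lemma cur_le (T : ℕ) (h : List (N × Bool)) (i : N) : cur T h i ≤ T := by
  induction h with
  | nil => simp
  | cons x h ih => exact (cur_cons_le T x h i).trans ih

lemma cur_append_le (T : ℕ) (l h : List (N × Bool)) (i : N) :
    cur T (l ++ h) i ≤ cur T h i := by
  induction l with
  | nil => simp
  | cons x l ih => exact (cur_cons_le T x (l ++ h) i).trans ih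

lemma Valid.tail {T : ℕ} {x : N × Bool} {h : List (N × Bool)} (hv : Valid T (x :: h)) :
    Valid T h := hv.2.2

lemma Valid.of_append {T : ℕ} {l h : List (N × Bool)} (hv : Valid T (l ++ h)) : Valid T h := by
  induction l with
  | nil => simpa using hv
  | cons x l ih => exact ih hv.tail

lemma cur_dead {T : ℕ} (l h : List (N × Bool)) (hv : Valid T (l ++ h)) (i : N)
    (hi : (i, false) ∈ h) : cur T (l ++ h) i = cur T h i := by
  induction l with
  | nil => simp
  | cons x l ih =>
    have hv' : Valid T (x :: (l ++ h)) := hv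
    have h1 := ih hv'.tail
    have hx : x.1 ≠ i := by
      intro hx
      apply hv'.1
      rw [hx]; exact List.mem_append_right _ hi
    rw [← h1]
    show cur T (x :: (l ++ h)) i = _
    rw [cur_cons, if_neg (fun hh => hx hh.1)]

variable [Fintype N]

/-- buyers known to have level at most `k` -/
def psd (T k : ℕ) (h : List (N × Bool)) : Finset N := univ.filter (fun i => cur T h i ≤ k)

/-- buyers that have been tested at level `k` (or are known to be below) -/
def tst (T k : ℕ) (h : List (N × Bool)) : Finset N :=
  univ.filter (fun i => cur T h i < k ∨ (cur T h i = k ∧ (i, false) ∈ h))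

lemma mem_psd {T k : ℕ} {h : List (N × Bool)} {i : N} : i ∈ psd T k h ↔ cur T h i ≤ k := by
  simp [psd]

lemma mem_tst {T k : ℕ} {h : List (N × Bool)} {i : N} :
    i ∈ tst T k h ↔ cur T h i < k ∨ (cur T h i = k ∧ (i, false) ∈ h) := by
  simp [tst]

lemma tst_nil {T k : ℕ} (hk : k ≤ T) : tst T k ([] : List (N × Bool)) = ∅ := by
  ext i; simp [mem_tst]; omega

lemma tst_sub_psd (T k : ℕ) (h : List (N × Bool)) : tst T k h ⊆ psd T k h := by
  intro i hi; rw [mem_tst] at hi; rw [mem_psd]; omega

lemma psd_mono (T k : ℕ) (l h : List (N × Bool)) : psd T k h ⊆ psd T k (l ++ h) := by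
  intro i hi; rw [mem_psd] at *; exact (cur_append_le T l h i).trans hi

lemma tst_mono (T k : ℕ) (l h : List (N × Bool)) (hv : Valid T (l ++ h)) :
    tst T k h ⊆ tst T k (l ++ h) := by
  intro i hi
  rw [mem_tst] at *
  rcases hi with hi | ⟨hi, hd⟩
  · left; exact lt_of_le_of_lt (cur_append_le T l h i) hi
  · right
    exact ⟨by rw [cur_dead l h hv i hd]; exact hi, List.mem_append_right _ hd⟩

lemma psd_cons_card (T k : ℕ) (x : N × Bool) (h : List (N × Bool)) (W : Finset N) :
    (psd T k (x :: h) ∩ W).card ≤ (psd T k h ∩ W).card + 1 := by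
  have : psd T k (x :: h) ∩ W ⊆ insert x.1 (psd T k h ∩ W) := by
    intro i hi
    rw [mem_inter, mem_psd] at hi
    rw [mem_insert, mem_inter, mem_psd]
    by_cases hx : x.1 = i
    · left; exact hx.symm
    · right
      refine ⟨?_, hi.2⟩
      have := hi.1
      rwa [cur_cons, if_neg (fun hh => hx hh.1)] at this
  exact (card_le_card this).trans (card_insert_le _ _)

end

section
variable {N : Type} {m : ℕ → ℕ}

/-- every node comes with a coherent family of ancestors -/
lemma exists_anc [Nonempty N] (j : ℕ) (q : PT N m j) :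
    ∃ nd : ∀ k, PT N m k, nd j = q ∧ ∀ k < j, par (nd (k + 1)) = nd k := by
  have hne : ∀ k, Nonempty (PT N m k) := by
    intro k
    induction k with
    | zero => exact ⟨()⟩
    | succ k ih =>
      obtain ⟨p⟩ := ih
      exact ⟨(p, fun _ => Classical.arbitrary N)⟩
  induction j with
  | zero =>
    refine ⟨fun k => (hne k).some, ?_, fun k hk => absurd hk (Nat.not_lt_zero _)⟩
    exact Subsingleton.elim (α := Unit) _ _
  | succ j ih =>
    obtain ⟨nd', h1, h2⟩ := ih (par q)
    refine ⟨Function.update nd' (j + 1) q, Function.update_self _ _ _, ?_⟩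
    intro k hk
    rcases Nat.lt_succ_iff_lt_or_eq.mp hk with hk' | hk'
    · rw [Function.update_of_ne (by omega), Function.update_of_ne (by omega)]
      exact h2 k hk'
    · subst hk'
      rw [Function.update_self, Function.update_of_ne (by omega), h1]

variable [DecidableEq N]

lemma mem_HU (R : ∀ k, PT N m k → Finset N) {J : ℕ} {nd : ∀ k, PT N m k}
    (hnd : ∀ k < J, par (nd (k + 1)) = nd k) (k : ℕ) (i : N) :
    ∀ j ≤ J, i ∈ HU R k j (nd j) ↔ ∃ l, k ≤ l ∧ l < j ∧ i ∈ hd R l (nd (l + 1)) := by
  intro j
  induction j with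
  | zero => intro _; simp [HU]
  | succ j ih =>
    intro hj
    have ih := ih (by omega)
    unfold HU
    split_ifs with hkj
    · rw [mem_union, hnd j (by omega), ih]
      constructor
      · rintro (⟨l, h1, h2, h3⟩ | h3)
        · exact ⟨l, h1, by omega, h3⟩
        · exact ⟨j, hkj, by omega, h3⟩
      · rintro ⟨l, h1, h2, h3⟩
        rcases Nat.lt_succ_iff_lt_or_eq.mp h2 with h2 | h2
        · left; exact ⟨l, h1, h2, h3⟩
        · right; subst h2; exact h3
    · simp only [notMem_empty, false_iff, not_exists, not_and]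
      intro l h1 h2; omega

end

end K3h61.CA
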