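import Mathlib

/-!
# Finitely supported product measures
-/

namespace K3h61.CA

open Finset MeasureTheory

theorem pi_facts (n m : ℕ) (w : Fin m → ℝ) (hw : ∀ j, 0 < w j) (hsum : ∑ j, w j = 1)
    (val : Fin m → ℝ) (hval : Function.Injective val) :
    ∃ D : Measure ℝ, IsProbabilityMeasure D ∧ D (Set.range val)ᶜ = 0 ∧
      (∀ f : (Fin n → ℝ) → ℝ, Integrable f (Measure.pi fun _ : Fin n => D)) ∧
      (∀ f : (Fin n → ℝ) → ℝ, ∫ v, f v ∂(Measure.pi fun _ : Fin n => D) =
        ∑ x : Fin n → Fin m, (∏ i, w (x i)) * f (fun i => val (x i))) ∧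
      (∀ p : (Fin n → ℝ) → Prop, (∀ᵐ v ∂(Measure.pi fun _ : Fin n => D), p v) →
        ∀ x : Fin n → Fin m, p (fun i => val (x i))) := by
  classical
  let ν : Measure (Fin m) := ∑ j, ENNReal.ofReal (w j) • Measure.dirac j
  have hν1 : ∀ j, ν {j} = ENNReal.ofReal (w j) := by
    intro j
    simp only [ν, Measure.coe_finset_sum, Finset.sum_apply, Measure.smul_apply, smul_eq_mul]
    rw [sum_eq_single j]
    · simp
    · intro b _ hb
      rw [Measure.dirac_apply' _ (measurableSet_singleton _)]
      simp [hb]
    · intro h; exact absurd (mem_univ _) h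
  have hνp : IsProbabilityMeasure ν := by
    constructor
    simp only [ν, Measure.coe_finset_sum, Finset.sum_apply, Measure.smul_apply, smul_eq_mul,
      measure_univ, mul_one]
    rw [← ENNReal.ofReal_sum_of_nonneg (fun j _ => (hw j).le), hsum, ENNReal.ofReal_one]
  have hvm : Measurable val := measurable_of_finite val
  have hDp : IsProbabilityMeasure (ν.map val) := Measure.isProbabilityMeasure_map hvm.aemeasurable
  let φ : (Fin n → Fin m) → (Fin n → ℝ) := fun x i => val (x i)
  have hφm : Measurable φ := measurable_of_finite φ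
  have hφi : Function.Injective φ := by
    intro x y hxy
    funext i
    exact hval (congrFun hxy i)
  have hφe : MeasurableEmbedding φ := hφm.measurableEmbedding hφi
  have hpi : (Measure.pi fun _ : Fin n => ν.map val) = (Measure.pi fun _ : Fin n => ν).map φ := by
    have := Measure.pi_map_pi (μ := fun _ : Fin n => ν) (f := fun _ : Fin n => val)
      (fun i => hvm.aemeasurable)
    exact this.symm
  have hsing : ∀ x : Fin n → Fin m, (Measure.pi fun _ : Fin n => ν) {x} =
      ENNReal.ofReal (∏ i, w (x i)) := by
    intro x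
    rw [Measure.pi_singleton, ENNReal.ofReal_prod_of_nonneg (fun i _ => (hw _).le)]
    exact prod_congr rfl (fun i _ => hν1 (x i))
  refine ⟨ν.map val, hDp, ?_, ?_, ?_, ?_⟩
  · rw [Measure.map_apply hvm (Set.finite_range val).measurableSet.compl]
    simp
  · intro f
    rw [hpi, hφe.integrable_map_iff]
    exact Integrable.of_finite
  · intro f
    rw [hpi, hφe.integral_map, integral_fintype Integrable.of_finite]
    apply sum_congr rfl
    intro x _
    rw [smul_eq_mul, Measure.real, hsing,
      ENNReal.toReal_ofReal (prod_nonneg (fun i _ => (hw _).le))]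
  · intro p hp x
    rw [hpi, hφe.ae_map_iff, ae_iff_of_countable] at hp
    apply hp x
    rw [hsing]
    have : 0 < ∏ i, w (x i) := prod_pos (fun i _ => hw _)
    simpa using this

end K3h61.CA
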