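import Pool.Agent.K3h61.CA.Core
import Pool.Agent.K3h61.CA.Meas

/-!
# MP_9cf523_lc: no constant factor for clock auctions with downward-closed constraints

Both questions ask for a constant `c` such that clock auctions are `c`-approximations for every
downward-closed constraint: Q1 for deterministic Bayesian auctions, Q2 for randomized prior-free
auctions. Both answers are no: for every `c` there is a downward-closed `F` and one finitely
supported distribution `D` such that, if the values are independent with law `D`, every
deterministic clock auction has `c E[welfare] < E[OPT]`; averaging over the random auction this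
also defeats every randomized prior-free auction for `F`.

Proof idea. There are `T + 1` value levels `B ^ (T - d)`, `d = 0, …, T`. At depth `k` the feasible
sets live in a region of `n_k = n_{k+1}²` buyers, about `μ_k = B ^ (k+1)` of which have level at most
`k`; a feasible set contains a head of at most `μ_k` buyers of the region, and the head determines
a pseudorandom subregion with `n_{k+1}` buyers in which the rest of the set must lie. A head made
of buyers of level exactly `k` has value about `B ^ (T+1)` for every `k`, so `E[OPT]` is at least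
`T B ^ (T+1) / 8`. A clock auction can only find the buyers of level at most `k` in a region by
losing almost all other buyers of the region, hence (the subregions are pseudorandom) also almost
all other buyers in the subregion that belongs to the head; a supermartingale with a union bound
over all nodes, together with the fact that at every time at most `n_0` subregions are
under-represented among the tested buyers, gives a telescoping inequality that bounds the expected
welfare by `9 B ^ (T+1)`.
-/

set_option autoImplicit false

open MeasureTheory Finset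

namespace K3h61.CA.Joint

open K3h61.CA

/-- a downward-closed feasibility constraint -/
def DownwardClosed {N : Type} (F : Finset (Finset N)) : Prop :=
  ∅ ∈ F ∧ ∀ S ∈ F, ∀ S' ⊆ S, S' ∈ F

/-- sums over profiles of levels -/
lemma sum_levels (n T B : ℕ) (f : (Fin n → ℕ) → ℝ) :
    ∑ x : Fin n → Fin (T + 1), (∏ i, om T B (x i)) * f (fun i => (x i : ℕ)) =
      ∑ d ∈ Fintype.piFinset (fun _ : Fin n => range (T + 1)), wt T B d * f d := by
  apply sum_nbij (fun x i => ((x i : Fin (T + 1)) : ℕ))
  · intro x _
    rw [Fintype.mem_piFinset]
    intro i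
    exact mem_range.mpr (x i).2
  · intro x _ y _ hxy
    funext i
    exact Fin.ext (congrFun hxy i)
  · intro d hd
    rw [mem_coe, Fintype.mem_piFinset] at hd
    exact ⟨fun i => ⟨d i, mem_range.mp (hd i)⟩, mem_coe.mpr (mem_univ _), rfl⟩
  · intro x _
    rfl

lemma om_pos {T B : ℕ} (hB : 2 ≤ B) {k : ℕ} (hk : k ≤ T) : 0 < om T B k := by
  unfold om
  split_ifs with h0
  · exact QQ_pos (by omega) 0
  · obtain ⟨j, rfl⟩ := Nat.exists_eq_succ_of_ne_zero h0
    have h1 := QQ_pred (T := T) (B := B) (by omega) (show j < T by omega)
    have h3 := QQ_pos (T := T) (B := B) (by omega) (j + 1)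
    have h2 : zz T B j < 1 := by
      unfold zz
      have h4 : (1 : ℝ) ≤ nn T B (j + 1) := by
        have : 1 ≤ nn T B (j + 1) := Nat.one_le_iff_ne_zero.mpr (by unfold nn; positivity)
        exact_mod_cast this
      have h5 : (2 : ℝ) ≤ B := by exact_mod_cast hB
      rw [div_lt_one (by positivity)]
      nlinarith
    simp only [Nat.succ_eq_add_one, Nat.add_sub_cancel]
    rw [h1]; nlinarith

/-- **Q1 and Q2 have negative answers.** -/
theorem both :
    (∀ c : ℝ, ∃ (n : ℕ) (F : Finset (Finset (Fin n))) (D : Measure ℝ),
      DownwardClosed F ∧ IsProbabilityMeasure D ∧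
      (∃ s : Finset ℝ, (∀ x ∈ s, 0 < x) ∧ D (s : Set ℝ)ᶜ = 0) ∧
      (∀ f : (Fin n → ℝ) → ℝ, Integrable f (Measure.pi fun _ : Fin n => D)) ∧
      ∀ A : ClockAuction (Fin n),
        (∀ᵐ v ∂(Measure.pi fun _ : Fin n => D), A.ValidAt F v) →
        c * ∫ v, A.welfare v ∂(Measure.pi fun _ : Fin n => D) <
          ∫ v, opt F v ∂(Measure.pi fun _ : Fin n => D)) ∧
    (∀ c : ℝ, ∃ (n : ℕ) (F : Finset (Finset (Fin n))), DownwardClosed F ∧
      ∀ (Ω : Type) [MeasurableSpace Ω] (P : Measure Ω) [IsProbabilityMeasure P]
        (A : Ω → ClockAuction (Fin n)),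
        (∀ v : Fin n → ℝ, (∀ i, 0 ≤ v i) →
          (∀ᵐ ω ∂P, (A ω).ValidAt F v) ∧ Measurable (fun ω => (A ω).welfare v)) →
        ∃ v : Fin n → ℝ, (∀ i, 0 ≤ v i) ∧
          c * ∫ ω, (A ω).welfare v ∂P < opt F v) := by
  classical
  constructor
  · intro c
    obtain ⟨n, B, F, hB, hF0, hFd, hup, hlow⟩ := core (⌈72 * max c 0⌉₊ + 1) (by omega)
    set T := ⌈72 * max c 0⌉₊ + 1 with hT
    obtain ⟨D, hD1, hD2, hD3, hD4, hD5⟩ := pi_facts n (T + 1) (fun j => om T B j)
      (fun j => om_pos hB (by have := j.2; omega)) (by
        rw [← Finset.sum_range (fun x => om T B x), sum_om, QQ_T (by omega)])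
      (fun j => (av T B j : ℝ)) (by
        intro i j hij
        have h0 : (av T B i : ℝ) = (av T B j : ℝ) := hij
        have h1 : av T B i = av T B j := by exact_mod_cast h0
        unfold av at h1
        have h2 := Nat.pow_right_injective hB h1
        apply Fin.ext
        have := i.2
        have := j.2
        omega)
    refine ⟨n, F, D, ⟨hF0, hFd⟩, hD1, ?_, hD3, ?_⟩
    · refine ⟨univ.image (fun j : Fin (T + 1) => (av T B j : ℝ)), ?_, ?_⟩
      · intro x hx
        rw [mem_image] at hx
        obtain ⟨j, -, rfl⟩ := hx
        unfold av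
        have : (0 : ℝ) < B := by
          have : 0 < B := by omega
          exact_mod_cast this
        positivity
      · rw [coe_image, coe_univ, Set.image_univ]
        exact hD2
    · intro A hA
      have hA' := hD5 _ hA
      have e1 : ∫ v, A.welfare v ∂(Measure.pi fun _ : Fin n => D) =
          ∑ d ∈ Fintype.piFinset (fun _ : Fin n => range (T + 1)),
            wt T B d * A.welfare (vals T B d) := by
        rw [hD4]
        exact sum_levels n T B (fun d => A.welfare (vals T B d))
      have e2 : ∫ v, opt F v ∂(Measure.pi fun _ : Fin n => D) =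
          ∑ d ∈ Fintype.piFinset (fun _ : Fin n => range (T + 1)),
            wt T B d * opt F (vals T B d) := by
        rw [hD4]
        exact sum_levels n T B (fun d => opt F (vals T B d))
      have h1 := hup A (by
        intro d hd
        rw [Fintype.mem_piFinset] at hd
        exact hA' (fun i => ⟨d i, mem_range.mp (hd i)⟩))
      have hW0 : 0 ≤ ∫ v, A.welfare v ∂(Measure.pi fun _ : Fin n => D) := by
        rw [hD4]
        apply sum_nonneg
        intro x _
        apply mul_nonneg (prod_nonneg (fun i _ =>
          (om_pos hB (by have := (x i).2; omega)).le))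
        unfold ClockAuction.welfare
        exact sum_nonneg (fun i _ => by positivity)
      rw [e2]
      refine lt_of_lt_of_le ?_ hlow
      rw [← e1] at h1
      have hu : (0 : ℝ) < (B : ℝ) ^ (T + 1) := by
        have : (0 : ℝ) < B := by
          have : 0 < B := by omega
          exact_mod_cast this
        positivity
      have hTc : 72 * max c 0 < T := by
        have := Nat.le_ceil (72 * max c 0)
        rw [hT]; push_cast; linarith
      have hm : 0 ≤ max c 0 := le_max_right _ _
      calc c * ∫ v, A.welfare v ∂(Measure.pi fun _ : Fin n => D)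
          ≤ max c 0 * ∫ v, A.welfare v ∂(Measure.pi fun _ : Fin n => D) :=
            mul_le_mul_of_nonneg_right (le_max_left _ _) hW0
        _ ≤ max c 0 * (9 * (B : ℝ) ^ (T + 1)) := mul_le_mul_of_nonneg_left h1 hm
        _ < (T : ℝ) * (B : ℝ) ^ (T + 1) / 8 := by nlinarith
  · intro c
    obtain ⟨n, B, F, hB, hF0, hFd, hup, hlow⟩ := core (⌈72 * max c 0⌉₊ + 1) (by omega)
    set T := ⌈72 * max c 0⌉₊ + 1 with hT
    refine ⟨n, F, ⟨hF0, hFd⟩, ?_⟩
    intro Ω _ P _ A hA
    by_contra hne
    push Not at hne
    have hB0 : (0 : ℝ) < B := by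
      have : 0 < B := by omega
      exact_mod_cast this
    have hv0 : ∀ d : Fin n → ℕ, ∀ i, 0 ≤ vals T B d i := by
      intro d i; unfold vals; positivity
    have hu : (0 : ℝ) < (B : ℝ) ^ (T + 1) := by positivity
    have hTc : 72 * max c 0 < T := by
      have := Nat.le_ceil (72 * max c 0)
      rw [hT]; push_cast; linarith
    have hm : 0 ≤ max c 0 := le_max_right _ _
    have hwt : ∀ d ∈ Fintype.piFinset (fun _ : Fin n => range (T + 1)), 0 ≤ wt T B d := by
      intro d hd
      rw [Fintype.mem_piFinset] at hd
      unfold wt
      apply prod_nonneg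
      intro i _
      have := mem_range.mp (hd i)
      exact (om_pos hB (by omega)).le
    have hwel0 : ∀ d : Fin n → ℕ, ∀ ω, 0 ≤ (A ω).welfare (vals T B d) := by
      intro d ω
      unfold ClockAuction.welfare
      exact sum_nonneg (fun i _ => hv0 d i)
    have hint : ∀ d : Fin n → ℕ, Integrable (fun ω => (A ω).welfare (vals T B d)) P := by
      intro d
      apply Integrable.of_bound (hA _ (hv0 d)).2.aestronglyMeasurable
        (∑ i, vals T B d i)
      filter_upwards with ω
      rw [Real.norm_of_nonneg (hwel0 d ω)]
      unfold ClockAuction.welfare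
      exact sum_le_sum_of_subset_of_nonneg (subset_univ _) (fun i _ _ => hv0 d i)
    have h1 : ∀ᵐ ω ∂P, ∀ d ∈ Fintype.piFinset (fun _ : Fin n => range (T + 1)),
        (A ω).ValidAt F (vals T B d) := by
      rw [Filter.eventually_all_finset]
      intro d _
      exact (hA _ (hv0 d)).1
    have h2 : ∫ ω, ∑ d ∈ Fintype.piFinset (fun _ : Fin n => range (T + 1)),
        wt T B d * (A ω).welfare (vals T B d) ∂P ≤ 9 * (B : ℝ) ^ (T + 1) := by
      have h3 : ∫ ω, ∑ d ∈ Fintype.piFinset (fun _ : Fin n => range (T + 1)),
          wt T B d * (A ω).welfare (vals T B d) ∂P ≤ ∫ _ω, 9 * (B : ℝ) ^ (T + 1) ∂P := by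
        apply integral_mono_ae
        · exact integrable_finsetSum _ (fun d _ => (hint d).const_mul _)
        · exact integrable_const _
        · filter_upwards [h1] with ω hω
          exact hup (A ω) hω
      simpa using h3
    rw [integral_finsetSum _ (fun d _ => (hint d).const_mul _)] at h2
    simp only [integral_const_mul] at h2
    have h4 : (T : ℝ) * (B : ℝ) ^ (T + 1) / 8 ≤ max c 0 * (9 * (B : ℝ) ^ (T + 1)) := by
      refine hlow.trans ?_
      refine le_trans ?_ (mul_le_mul_of_nonneg_left h2 hm)
      rw [mul_sum]
      apply sum_le_sum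
      intro d hd
      have h5 := hne (vals T B d) (hv0 d)
      have h6 : 0 ≤ ∫ ω, (A ω).welfare (vals T B d) ∂P :=
        integral_nonneg (fun ω => hwel0 d ω)
      have h7 : opt F (vals T B d) ≤ max c 0 * ∫ ω, (A ω).welfare (vals T B d) ∂P :=
        h5.trans (mul_le_mul_of_nonneg_right (le_max_left _ _) h6)
      calc wt T B d * opt F (vals T B d) ≤
          wt T B d * (max c 0 * ∫ ω, (A ω).welfare (vals T B d) ∂P) :=
            mul_le_mul_of_nonneg_left h7 (hwt d hd)
        _ = _ := by ring
    nlinarith

end K3h61.CA.Joint
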