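import Pool.Agent.K3h61.CA.Tele

/-!
# Clock auctions: the supermartingale
-/

namespace K3h61.CA

open Finset

section
variable {N : Type} [DecidableEq N] [Fintype N]

lemma psd_false (T k : ℕ) (h : List (N × Bool)) (i : N) :
    psd T k ((i, false) :: h) = psd T k h := by
  ext j; rw [mem_psd, mem_psd, cur_false]

lemma psd_true_eq {T k : ℕ} {h : List (N × Bool)} {i : N} (hc : cur T h i = k + 1) :
    psd T k ((i, true) :: h) = insert i (psd T k h) := by
  ext j
  rw [mem_insert, mem_psd, mem_psd]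
  by_cases hij : i = j
  · subst hij; rw [cur_true_self]; constructor
    · intro _; left; rfl
    · intro _; omega
  · rw [cur_cons_ne T h true hij]
    constructor
    · intro h1; right; exact h1
    · rintro (h1 | h1)
      · exact absurd h1.symm hij
      · exact h1

lemma psd_true_ne {T k : ℕ} {h : List (N × Bool)} {i : N} (hc : cur T h i ≠ k + 1) :
    psd T k ((i, true) :: h) = psd T k h := by
  ext j
  rw [mem_psd, mem_psd]
  by_cases hij : i = j
  · subst hij; rw [cur_true_self]; omega
  · rw [cur_cons_ne T h true hij]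

lemma tst_eq {T k : ℕ} {h : List (N × Bool)} {i : N} (b : Bool)
    (hc : cur T h i = k + 1) : tst T (k + 1) ((i, b) :: h) = insert i (tst T (k + 1) h) := by
  ext j
  rw [mem_insert, mem_tst, mem_tst]
  by_cases hij : i = j
  · subst hij
    constructor
    · intro _; left; rfl
    · intro _
      cases b
      · rw [cur_false]; right; exact ⟨hc, by simp⟩
      · rw [cur_true_self]; left; omega
  · rw [cur_cons_ne T h b hij]
    have h1 : (j, false) ∈ (i, b) :: h ↔ (j, false) ∈ h := by
      rw [List.mem_cons]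
      constructor
      · rintro (h1 | h1)
        · exact absurd (Prod.mk.inj h1).1.symm hij
        · exact h1
      · intro h1; right; exact h1
    rw [h1]
    constructor
    · intro h2; right; exact h2
    · rintro (h2 | h2)
      · exact absurd h2.symm hij
      · exact h2

lemma tst_ne {T k : ℕ} {h : List (N × Bool)} {i : N} (b : Bool) (hal : (i, false) ∉ h)
    (h0 : 0 < cur T h i) (hc : cur T h i ≠ k + 1) :
    tst T (k + 1) ((i, b) :: h) = tst T (k + 1) h := by
  ext j
  rw [mem_tst, mem_tst]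
  by_cases hij : i = j
  · subst hij
    cases b
    · rw [cur_false]
      constructor
      · rintro (h1 | ⟨h1, -⟩)
        · left; exact h1
        · exact absurd h1 hc
      · rintro (h1 | ⟨h1, -⟩)
        · left; exact h1
        · exact absurd h1 hc
    · rw [cur_true_self]
      have h1 : (i, false) ∉ (i, true) :: h := by
        rw [List.mem_cons]; rintro (h1 | h1)
        · exact absurd (Prod.mk.inj h1).2 (by decide)
        · exact hal h1
      constructor
      · rintro (h2 | ⟨-, h2⟩)
        · left; omega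
        · exact absurd h2 h1
      · rintro (h2 | ⟨-, h2⟩)
        · left; omega
        · exact absurd h2 hal
  · rw [cur_cons_ne T h b hij]
    have h1 : (j, false) ∈ (i, b) :: h ↔ (j, false) ∈ h := by
      rw [List.mem_cons]
      constructor
      · rintro (h1 | h1)
        · exact absurd (Prod.mk.inj h1).1.symm hij
        · exact h1
      · intro h1; right; exact h1
    rw [h1]

/-- exponent of the elementary supermartingales -/
noncomputable def YY (T : ℕ) (θ β : ℝ) (k : ℕ) (A : Finset N) (h : List (N × Bool)) : ℝ :=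
  θ * ((psd T k h ∩ A).card : ℝ) - β * ((tst T (k + 1) h ∩ A).card : ℝ)

lemma YY_step {T : ℕ} {θ β z : ℝ} {k : ℕ} (A : Finset N) {h : List (N × Bool)} {i : N}
    (hz0 : 0 ≤ z) (hz1 : z ≤ 1) (hal : (i, false) ∉ h) (h0 : 0 < cur T h i)
    (hβ : k = cur T h i - 1 → z * (Real.exp θ - 1) ≤ β) :
    z * Real.exp (YY T θ β k A ((i, true) :: h)) +
      (1 - z) * Real.exp (YY T θ β k A ((i, false) :: h)) ≤ Real.exp (YY T θ β k A h) := by
  by_cases hc : cur T h i = k + 1
  · by_cases hiA : i ∈ A
    · have hp : i ∉ psd T k h ∩ A := by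
        rw [mem_inter, mem_psd]; rintro ⟨h1, -⟩; omega
      have ht : i ∉ tst T (k + 1) h ∩ A := by
        rw [mem_inter, mem_tst]; rintro ⟨h1 | ⟨-, h1⟩, -⟩
        · omega
        · exact hal h1
      have e1 : YY T θ β k A ((i, true) :: h) = YY T θ β k A h + (θ - β) := by
        unfold YY
        rw [psd_true_eq hc, tst_eq true hc, insert_inter_of_mem hiA, insert_inter_of_mem hiA,
          card_insert_of_notMem hp, card_insert_of_notMem ht]
        push_cast; ring
      have e2 : YY T θ β k A ((i, false) :: h) = YY T θ β k A h + (-β) := by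
        unfold YY
        rw [psd_false, tst_eq false hc, insert_inter_of_mem hiA, card_insert_of_notMem ht]
        push_cast; ring
      rw [e1, e2, Real.exp_add, Real.exp_add, Real.exp_sub]
      have hb := hβ (by omega)
      have hE := Real.exp_pos (YY T θ β k A h)
      have h1 : 1 + z * (Real.exp θ - 1) ≤ Real.exp β := by
        have := Real.add_one_le_exp β
        linarith
      have h2 : z * (Real.exp θ / Real.exp β) + (1 - z) * Real.exp (-β) ≤ 1 := by
        rw [Real.exp_neg]
        have hbp := Real.exp_pos β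
        have : z * (Real.exp θ / Real.exp β) + (1 - z) * (Real.exp β)⁻¹ =
            (1 + z * (Real.exp θ - 1)) / Real.exp β := by
          field_simp; ring
        rw [this, div_le_one hbp]; exact h1
      calc _ = Real.exp (YY T θ β k A h) *
            (z * (Real.exp θ / Real.exp β) + (1 - z) * Real.exp (-β)) := by ring
        _ ≤ Real.exp (YY T θ β k A h) * 1 := mul_le_mul_of_nonneg_left h2 hE.le
        _ = _ := mul_one _
    · have e1 : YY T θ β k A ((i, true) :: h) = YY T θ β k A h := by
        unfold YY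
        rw [psd_true_eq hc, tst_eq true hc, insert_inter_of_notMem hiA,
          insert_inter_of_notMem hiA]
      have e2 : YY T θ β k A ((i, false) :: h) = YY T θ β k A h := by
        unfold YY
        rw [psd_false, tst_eq false hc, insert_inter_of_notMem hiA]
      rw [e1, e2]; apply le_of_eq; ring
  · have e1 : YY T θ β k A ((i, true) :: h) = YY T θ β k A h := by
      unfold YY
      rw [psd_true_ne hc, tst_ne true hal h0 hc]
    have e2 : YY T θ β k A ((i, false) :: h) = YY T θ β k A h := by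
      unfold YY
      rw [psd_false, tst_ne false hal h0 hc]
    rw [e1, e2]; apply le_of_eq; ring

/-- number of tests that are still possible -/
def rem (T : ℕ) (h : List (N × Bool)) : ℕ :=
  ∑ i : N, if (i, false) ∈ h then 0 else cur T h i

lemma rem_nil (T : ℕ) : rem T ([] : List (N × Bool)) = Fintype.card N * T := by
  simp [rem]

lemma rem_step {T : ℕ} {h : List (N × Bool)} {i : N} (b : Bool) (hal : (i, false) ∉ h)
    (h0 : 0 < cur T h i) : rem T ((i, b) :: h) + 1 ≤ rem T h := by
  unfold rem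
  rw [Nat.succ_le_iff]
  apply sum_lt_sum
  · intro j _
    by_cases hd : (j, false) ∈ h
    · rw [if_pos (List.mem_cons_of_mem _ hd)]; exact Nat.zero_le _
    · rw [if_neg hd]
      split_ifs
      · exact Nat.zero_le _
      · exact cur_cons_le T _ h j
  · refine ⟨i, mem_univ _, ?_⟩
    rw [if_neg hal]
    cases b
    · rw [if_pos (by simp)]; exact h0
    · split_ifs
      · exact h0
      · rw [cur_true_self]; omega

open Classical in
/-- first part of the potential -/
noncomputable def X1 (T B : ℕ) (ε : ℝ) (R : ∀ k, PT N (mu B) k → Finset N)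
    (h : List (N × Bool)) : ℝ :=
  ∑ k ∈ range T, ∑ p : PT N (mu B) k,
    Real.exp (-(ε ^ 2 * (mu B k : ℝ))) *
      Real.exp (YY T ε ((Real.exp ε - 1) * zz T B k) k (R k p) h)

open Classical in
/-- one term of the second part -/
noncomputable def X2t (T B : ℕ) (ε : ℝ) (R : ∀ k, PT N (mu B) k → Finset N)
    (τ h : List (N × Bool)) : ℝ :=
  ∑ j ∈ range T, ∑ k ∈ range (j + 1),
    ∑ q ∈ univ.filter (fun q : PT N (mu B) (j + 1) => UD T B ε R j q (tst T (j + 1) τ)),
      (Real.exp (-(ε * (mu B k : ℝ) / 2)) *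
        Real.exp (-(YY T 1 (2 * zz T B k) k (WW R k (j + 1) q) τ))) *
          Real.exp (YY T 1 (2 * zz T B k) k (WW R k (j + 1) q) h)

/-- second part of the potential -/
noncomputable def X2 (T B : ℕ) (ε : ℝ) (R : ∀ k, PT N (mu B) k → Finset N)
    (h : List (N × Bool)) : ℝ :=
  (h.tails.map (fun τ => X2t T B ε R τ h)).sum

/-- bound for a new term -/
noncomputable def CC (T B : ℕ) (ε : ℝ) : ℝ :=
  (T : ℝ) * T * (nn T B 0 : ℝ) * Real.exp (-(ε * (B : ℝ) / 2))

/-- the potential -/
noncomputable def XX (T B : ℕ) (ε : ℝ) (R : ∀ k, PT N (mu B) k → Finset N)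
    (h : List (N × Bool)) : ℝ :=
  X1 T B ε R h + X2 T B ε R h + (rem T h : ℝ) * CC T B ε

lemma sum_step {ι : Type*} (s : Finset ι) (w a b c : ι → ℝ) (z : ℝ) (hw : ∀ i ∈ s, 0 ≤ w i)
    (h : ∀ i ∈ s, z * a i + (1 - z) * b i ≤ c i) :
    z * ∑ i ∈ s, w i * a i + (1 - z) * ∑ i ∈ s, w i * b i ≤ ∑ i ∈ s, w i * c i := by
  rw [mul_sum, mul_sum, ← sum_add_distrib]
  apply sum_le_sum
  intro i hi
  have := mul_le_mul_of_nonneg_left (h i hi) (hw i hi)
  calc _ = w i * (z * a i + (1 - z) * b i) := by ring
    _ ≤ _ := this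

lemma sum_step' {ι : Type*} (s : Finset ι) (a b c : ι → ℝ) (z : ℝ)
    (h : ∀ i ∈ s, z * a i + (1 - z) * b i ≤ c i) :
    z * ∑ i ∈ s, a i + (1 - z) * ∑ i ∈ s, b i ≤ ∑ i ∈ s, c i := by
  rw [mul_sum, mul_sum, ← sum_add_distrib]
  exact sum_le_sum h

variable {T B : ℕ} {ε : ℝ} {R : ∀ k, PT N (mu B) k → Finset N}

lemma zz_nonneg (T B k : ℕ) : 0 ≤ zz T B k := by unfold zz; positivity

lemma zz_le_one (hB : 1 ≤ B) (k : ℕ) : zz T B k ≤ 1 := by
  unfold zz nn
  have hB' : (1 : ℝ) ≤ B := by exact_mod_cast hB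
  rw [div_le_one (by positivity)]
  push_cast
  have : (1 : ℝ) ≤ (B : ℝ) ^ ((T + 1) * 2 ^ (T - (k + 1))) := one_le_pow₀ hB'
  nlinarith

lemma X1_step (hε : 0 < ε) (hB : 1 ≤ B) {h : List (N × Bool)} {i : N}
    (hal : (i, false) ∉ h) (h0 : 0 < cur T h i) :
    zz T B (cur T h i - 1) * X1 T B ε R ((i, true) :: h) +
      (1 - zz T B (cur T h i - 1)) * X1 T B ε R ((i, false) :: h) ≤ X1 T B ε R h := by
  unfold X1
  apply sum_step'
  intro k _
  apply sum_step
  · intro p _; positivity
  · intro p _
    apply YY_step (R k p) (zz_nonneg _ _ _) (zz_le_one hB _) hal h0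
    intro hk
    rw [← hk]; apply le_of_eq; ring

lemma X2t_step (hB : 1 ≤ B) (τ : List (N × Bool)) {h : List (N × Bool)}
    {i : N} (hal : (i, false) ∉ h) (h0 : 0 < cur T h i) :
    zz T B (cur T h i - 1) * X2t T B ε R τ ((i, true) :: h) +
      (1 - zz T B (cur T h i - 1)) * X2t T B ε R τ ((i, false) :: h) ≤ X2t T B ε R τ h := by
  unfold X2t
  apply sum_step'
  intro j _
  apply sum_step'
  intro k _
  apply sum_step
  · intro p _; positivity
  · intro p _
    apply YY_step _ (zz_nonneg _ _ _) (zz_le_one hB _) hal h0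
    intro hk
    rw [← hk]
    have h1 : Real.exp 1 ≤ 3 := by
      have := Real.exp_one_lt_d9; linarith
    have := zz_nonneg T B k
    nlinarith

lemma X2t_nonneg (τ h : List (N × Bool)) : 0 ≤ X2t T B ε R τ h := by
  unfold X2t; positivity

lemma X1_nonneg (h : List (N × Bool)) : 0 ≤ X1 T B ε R h := by
  unfold X1; positivity

lemma X2_nonneg (h : List (N × Bool)) : 0 ≤ X2 T B ε R h := by
  unfold X2
  apply List.sum_nonneg
  intro x hx
  rw [List.mem_map] at hx
  obtain ⟨τ, -, rfl⟩ := hx
  exact X2t_nonneg τ h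

lemma CC_nonneg : 0 ≤ CC T B ε := by unfold CC; positivity

lemma XX_nonneg (h : List (N × Bool)) : 0 ≤ XX T B ε R h := by
  unfold XX
  have h1 := X1_nonneg (T := T) (B := B) (ε := ε) (R := R) h
  have h2 := X2_nonneg (T := T) (B := B) (ε := ε) (R := R) h
  have h3 := CC_nonneg (T := T) (B := B) (ε := ε)
  positivity

lemma X2t_self (hε : 0 < ε) (hB : 1 ≤ B) (hcard : Fintype.card N = nn T B 0)
    (hR : IsReg T B ε R) (τ : List (N × Bool)) : X2t T B ε R τ τ ≤ CC T B ε := by
  classical
  have hB1 : (1 : ℝ) ≤ B := by exact_mod_cast hB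
  unfold X2t CC
  have h1 : ∀ j ∈ range T, ∀ k ∈ range (j + 1),
      ∑ q ∈ univ.filter (fun q : PT N (mu B) (j + 1) => UD T B ε R j q (tst T (j + 1) τ)),
      (Real.exp (-(ε * (mu B k : ℝ) / 2)) *
        Real.exp (-(YY T 1 (2 * zz T B k) k (WW R k (j + 1) q) τ))) *
          Real.exp (YY T 1 (2 * zz T B k) k (WW R k (j + 1) q) τ) ≤
        (nn T B 0 : ℝ) * Real.exp (-(ε * (B : ℝ) / 2)) := by
    intro j hj k hk
    have h2 : ∀ q : PT N (mu B) (j + 1), (Real.exp (-(ε * (mu B k : ℝ) / 2)) *
        Real.exp (-(YY T 1 (2 * zz T B k) k (WW R k (j + 1) q) τ))) *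
          Real.exp (YY T 1 (2 * zz T B k) k (WW R k (j + 1) q) τ) ≤
          Real.exp (-(ε * (B : ℝ) / 2)) := by
      intro q
      rw [mul_assoc, ← Real.exp_add, neg_add_cancel, Real.exp_zero, mul_one]
      apply Real.exp_le_exp.mpr
      have : (B : ℝ) ≤ mu B k := by
        unfold mu; push_cast
        calc (B : ℝ) = B ^ 1 := by ring
          _ ≤ B ^ (k + 1) := pow_le_pow_right₀ hB1 (by omega)
      nlinarith
    refine (sum_le_sum (fun q _ => h2 q)).trans ?_
    rw [sum_const, nsmul_eq_mul]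
    apply mul_le_mul_of_nonneg_right _ (Real.exp_pos _).le
    have := hR.samp j (mem_range.mp hj) (tst T (j + 1) τ)
    rw [hcard] at this
    exact_mod_cast this
  have h2 : ∀ j ∈ range T, ∑ k ∈ range (j + 1),
      ∑ q ∈ univ.filter (fun q : PT N (mu B) (j + 1) => UD T B ε R j q (tst T (j + 1) τ)),
      (Real.exp (-(ε * (mu B k : ℝ) / 2)) *
        Real.exp (-(YY T 1 (2 * zz T B k) k (WW R k (j + 1) q) τ))) *
          Real.exp (YY T 1 (2 * zz T B k) k (WW R k (j + 1) q) τ) ≤
        (T : ℝ) * ((nn T B 0 : ℝ) * Real.exp (-(ε * (B : ℝ) / 2))) := by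
    intro j hj
    refine (sum_le_sum (fun k hk => h1 j hj k hk)).trans ?_
    rw [sum_const, card_range, nsmul_eq_mul]
    apply mul_le_mul_of_nonneg_right _ (by positivity)
    rw [mem_range] at hj
    exact_mod_cast hj
  refine (sum_le_sum (fun j hj => h2 j hj)).trans ?_
  rw [sum_const, card_range, nsmul_eq_mul]
  apply le_of_eq; ring

lemma X2_step (hε : 0 < ε) (hB : 1 ≤ B) (hcard : Fintype.card N = nn T B 0)
    (hR : IsReg T B ε R) {h : List (N × Bool)} {i : N}
    (hal : (i, false) ∉ h) (h0 : 0 < cur T h i) :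
    zz T B (cur T h i - 1) * X2 T B ε R ((i, true) :: h) +
      (1 - zz T B (cur T h i - 1)) * X2 T B ε R ((i, false) :: h) ≤
      X2 T B ε R h + CC T B ε := by
  have e : ∀ b : Bool, X2 T B ε R ((i, b) :: h) ≤ CC T B ε +
      (h.tails.map (fun τ => X2t T B ε R τ ((i, b) :: h))).sum := by
    intro b
    unfold X2
    rw [List.tails_cons, List.map_cons, List.sum_cons]
    exact add_le_add_left (X2t_self hε hB hcard hR _) _
  have hz0 := zz_nonneg T B (cur T h i - 1)
  have hz1 := zz_le_one (T := T) hB (cur T h i - 1)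
  have h1 : ∀ l : List (List (N × Bool)),
      zz T B (cur T h i - 1) * (l.map (fun τ => X2t T B ε R τ ((i, true) :: h))).sum +
      (1 - zz T B (cur T h i - 1)) * (l.map (fun τ => X2t T B ε R τ ((i, false) :: h))).sum ≤
      (l.map (fun τ => X2t T B ε R τ h)).sum := by
    intro l
    induction l with
    | nil => simp
    | cons τ l ih =>
      simp only [List.map_cons, List.sum_cons]
      have := X2t_step (R := R) (ε := ε) hB τ hal h0
      linarith
  have h2 := mul_le_mul_of_nonneg_left (e true) hz0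
  have h3 := mul_le_mul_of_nonneg_left (e false) (sub_nonneg.mpr hz1)
  have h4 := h1 h.tails
  unfold X2 at *
  linarith

lemma XX_step (hε : 0 < ε) (hB : 1 ≤ B) (hcard : Fintype.card N = nn T B 0)
    (hR : IsReg T B ε R) {h : List (N × Bool)} {i : N}
    (hal : (i, false) ∉ h) (h0 : 0 < cur T h i) :
    zz T B (cur T h i - 1) * XX T B ε R ((i, true) :: h) +
      (1 - zz T B (cur T h i - 1)) * XX T B ε R ((i, false) :: h) ≤ XX T B ε R h := by
  have h1 := X1_step (R := R) hε hB hal h0
  have h2 := X2_step hε hB hcard hR hal h0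
  have h3 : ∀ b : Bool, (rem T ((i, b) :: h) : ℝ) * CC T B ε ≤
      (rem T h : ℝ) * CC T B ε - CC T B ε := by
    intro b
    have h4 : (rem T ((i, b) :: h) : ℝ) + 1 ≤ rem T h := by exact_mod_cast rem_step b hal h0
    have h5 := CC_nonneg (T := T) (B := B) (ε := ε)
    nlinarith
  have hz0 := zz_nonneg T B (cur T h i - 1)
  have hz1 := zz_le_one (T := T) hB (cur T h i - 1)
  have h4 := mul_le_mul_of_nonneg_left (h3 true) hz0
  have h5 := mul_le_mul_of_nonneg_left (h3 false) (sub_nonneg.mpr hz1)
  unfold XX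
  linarith

/-- the potential has reached 1 -/
def Bad (T B : ℕ) (ε : ℝ) (R : ∀ k, PT N (mu B) k → Finset N) (h : List (N × Bool)) : Prop :=
  ∃ τ : List (N × Bool), τ <:+ h ∧ 1 ≤ XX T B ε R τ

open Classical in
noncomputable def MM (T B : ℕ) (ε : ℝ) (R : ∀ k, PT N (mu B) k → Finset N)
    (h : List (N × Bool)) : ℝ := if Bad T B ε R h then 1 else XX T B ε R h

lemma MM_le (h : List (N × Bool)) (x : N × Bool) (hb : ¬ Bad T B ε R h) :
    MM T B ε R (x :: h) ≤ XX T B ε R (x :: h) := by
  unfold MM
  split_ifs with h1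
  · obtain ⟨τ, hτ, h2⟩ := h1
    rcases List.suffix_cons_iff.mp hτ with rfl | h3
    · exact h2
    · exact absurd ⟨τ, h3, h2⟩ hb
  · exact le_rfl

lemma MM_nonneg (h : List (N × Bool)) : 0 ≤ MM T B ε R h := by
  unfold MM; split_ifs
  · exact zero_le_one
  · exact XX_nonneg h

lemma MM_step (hε : 0 < ε) (hB : 1 ≤ B) (hcard : Fintype.card N = nn T B 0)
    (hR : IsReg T B ε R) {h : List (N × Bool)} {i : N}
    (hal : (i, false) ∉ h) (h0 : 0 < cur T h i) :
    zz T B (cur T h i - 1) * MM T B ε R ((i, true) :: h) +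
      (1 - zz T B (cur T h i - 1)) * MM T B ε R ((i, false) :: h) ≤ MM T B ε R h := by
  have hz0 := zz_nonneg T B (cur T h i - 1)
  have hz1 := zz_le_one (T := T) hB (cur T h i - 1)
  by_cases hb : Bad T B ε R h
  · have h1 : ∀ x, Bad T B ε R (x :: h) := by
      intro x
      obtain ⟨τ, h1, h2⟩ := hb
      exact ⟨τ, h1.trans (List.suffix_cons _ _), h2⟩
    unfold MM
    rw [if_pos (h1 _), if_pos (h1 _), if_pos hb]
    linarith
  · have h1 := mul_le_mul_of_nonneg_left (MM_le h (i, true) hb) hz0
    have h2 := mul_le_mul_of_nonneg_left (MM_le h (i, false) hb) (sub_nonneg.mpr hz1)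
    have h3 := XX_step hε hB hcard hR hal h0
    have h4 : MM T B ε R h = XX T B ε R h := by unfold MM; rw [if_neg hb]
    linarith

end

end K3h61.CA
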