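import Pool.Agent.K3h61.CA.Pot

/-!
# Clock auctions: the majorant of the welfare
-/

namespace K3h61.CA

open Finset

lemma card_PT (N : Type) [Fintype N] (m : ℕ → ℕ) (k : ℕ) :
    Fintype.card (PT N m k) = (Fintype.card N) ^ (∑ j ∈ range k, m j) := by
  classical
  induction k with
  | zero =>
    have e : PT N m 0 ≃ Unit := Equiv.refl _
    rw [Fintype.card_congr e]; simp
  | succ k ih =>
    have e : PT N m (k + 1) ≃ PT N m k × (Fin (m k) → N) := Equiv.refl _
    rw [Fintype.card_congr e, Fintype.card_prod, ih, Fintype.card_fun, Fintype.card_fin,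
      sum_range_succ, pow_add]

section
variable {N : Type} [DecidableEq N] [Fintype N]
variable {T B : ℕ} {ε : ℝ} {R : ∀ k, PT N (mu B) k → Finset N}

omit [Fintype N] in
lemma card_HU (k : ℕ) : ∀ j (q : PT N (mu B) j), (HU R k j q).card ≤ ∑ l ∈ range j, mu B l := by
  intro j
  induction j with
  | zero => intro q; simp [HU]
  | succ j ih =>
    intro q
    unfold HU
    split_ifs with hkj
    · refine (card_union_le _ _).trans ?_
      rw [sum_range_succ]
      apply add_le_add (ih _)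
      unfold hd
      refine (card_le_card inter_subset_left).trans (card_image_le.trans ?_)
      simp
    · simp

lemma sum_mu_le (hB : 1 ≤ B) (hTB : T ≤ B) (j : ℕ) (hj : j ≤ T) :
    ∑ l ∈ range j, mu B l ≤ B ^ (T + 1) := by
  calc ∑ l ∈ range j, mu B l ≤ ∑ l ∈ range j, B ^ T := by
        apply sum_le_sum
        intro l hl
        rw [mem_range] at hl
        unfold mu
        exact Nat.pow_le_pow_right hB (by omega)
    _ = j * B ^ T := by rw [sum_const, card_range, smul_eq_mul]
    _ ≤ B * B ^ T := Nat.mul_le_mul_right _ (hj.trans hTB)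
    _ = B ^ (T + 1) := by ring

lemma nn_ge (hB : 1 ≤ B) (k : ℕ) : B ^ (T + 1) ≤ nn T B k := by
  unfold nn
  apply Nat.pow_le_pow_right hB
  exact Nat.le_mul_of_pos_right _ (by positivity)

lemma nn_anti (hB : 1 ≤ B) {k j : ℕ} (hkj : k ≤ j) : nn T B j ≤ nn T B k := by
  unfold nn
  apply Nat.pow_le_pow_right hB
  apply Nat.mul_le_mul_left
  exact Nat.pow_le_pow_right (by norm_num) (by omega)

lemma card_WW (hB : 1 ≤ B) (hTB : T ≤ B) (hR : IsReg T B ε R) (k j : ℕ) (hkj : k ≤ j)
    (hj : j ≤ T) (q : PT N (mu B) j) : (WW R k j q).card ≤ 2 * nn T B k := by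
  unfold WW
  refine (card_union_le _ _).trans ?_
  rw [hR.card j hj]
  have h1 := (card_HU (R := R) k j q).trans (sum_mu_le hB hTB j hj)
  have h2 := nn_ge (T := T) hB k
  have h3 := nn_anti (T := T) hB hkj
  omega

lemma P1_of (hε : 0 < ε) (hε1 : ε ≤ 1) {h : List (N × Bool)} (hX : XX T B ε R h < 1) :
    ∀ k < T, ∀ p : PT N (mu B) k,
      ((psd T k h ∩ R k p).card : ℝ) ≤
        (1 + ε) * zz T B k * ((tst T (k + 1) h ∩ R k p).card : ℝ) + ε * (mu B k : ℝ) := by
  intro k hk p
  have h1 : X1 T B ε R h < 1 := by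
    have h2 := X2_nonneg (T := T) (B := B) (ε := ε) (R := R) h
    have h3 := CC_nonneg (T := T) (B := B) (ε := ε)
    have h4 : 0 ≤ (rem T h : ℝ) * CC T B ε := by positivity
    unfold XX at hX; linarith
  have h2 : Real.exp (-(ε ^ 2 * (mu B k : ℝ))) *
      Real.exp (YY T ε ((Real.exp ε - 1) * zz T B k) k (R k p) h) ≤ X1 T B ε R h := by
    unfold X1
    have h3 : Real.exp (-(ε ^ 2 * (mu B k : ℝ))) *
        Real.exp (YY T ε ((Real.exp ε - 1) * zz T B k) k (R k p) h) ≤
        ∑ p : PT N (mu B) k, Real.exp (-(ε ^ 2 * (mu B k : ℝ))) *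
        Real.exp (YY T ε ((Real.exp ε - 1) * zz T B k) k (R k p) h) :=
      single_le_sum (f := fun p => Real.exp (-(ε ^ 2 * (mu B k : ℝ))) *
        Real.exp (YY T ε ((Real.exp ε - 1) * zz T B k) k (R k p) h))
        (fun p _ => by positivity) (mem_univ p)
    refine h3.trans ?_
    exact single_le_sum (f := fun k => ∑ p : PT N (mu B) k,
        Real.exp (-(ε ^ 2 * (mu B k : ℝ))) *
        Real.exp (YY T ε ((Real.exp ε - 1) * zz T B k) k (R k p) h))
        (fun k _ => by positivity) (mem_range.mpr hk)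
  have h3 := h2.trans_lt h1
  rw [← Real.exp_add, Real.exp_lt_one_iff] at h3
  unfold YY at h3
  have h4 : Real.exp ε - 1 ≤ ε * (1 + ε) := by
    have := Real.abs_exp_sub_one_sub_id_le (x := ε) (by rw [abs_of_pos hε]; exact hε1)
    have := (abs_le.mp this).2
    nlinarith
  have h5 : (Real.exp ε - 1) * zz T B k * ((tst T (k + 1) h ∩ R k p).card : ℝ) ≤
      ε * (1 + ε) * zz T B k * ((tst T (k + 1) h ∩ R k p).card : ℝ) := by
    apply mul_le_mul_of_nonneg_right _ (by positivity)
    exact mul_le_mul_of_nonneg_right h4 (zz_nonneg _ _ _)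
  have h6 : ε * ((psd T k h ∩ R k p).card : ℝ) ≤
      ε * ((1 + ε) * zz T B k * ((tst T (k + 1) h ∩ R k p).card : ℝ) + ε * (mu B k : ℝ)) := by
    nlinarith
  exact le_of_mul_le_mul_left h6 hε

lemma P2_of (hB : 1 ≤ B) (hTB : T ≤ B) (hεB : 8 ≤ ε * B)
    (hR : IsReg T B ε R) {h : List (N × Bool)} (hX : XX T B ε R h < 1) :
    ∀ τ : List (N × Bool), τ <:+ h → ∀ j < T, ∀ k ≤ j, ∀ q : PT N (mu B) (j + 1),
      UD T B ε R j q (tst T (j + 1) τ) →
      ((psd T k h ∩ WW R k (j + 1) q).card : ℝ) - ((psd T k τ ∩ WW R k (j + 1) q).card : ℝ)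
        ≤ ε * (mu B k : ℝ) := by
  classical
  intro τ hτ j hj k hk q hUD
  have hB1 : (1 : ℝ) ≤ B := by exact_mod_cast hB
  have h1 : X2 T B ε R h < 1 := by
    have h2 := X1_nonneg (T := T) (B := B) (ε := ε) (R := R) h
    have h3 := CC_nonneg (T := T) (B := B) (ε := ε)
    have h4 : 0 ≤ (rem T h : ℝ) * CC T B ε := by positivity
    unfold XX at hX; linarith
  have h2 : X2t T B ε R τ h ≤ X2 T B ε R h := by
    unfold X2
    apply List.single_le_sum
    · intro x hx
      rw [List.mem_map] at hx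
      obtain ⟨τ', -, rfl⟩ := hx
      exact X2t_nonneg τ' h
    · rw [List.mem_map]
      exact ⟨τ, (List.mem_tails _ _).mpr hτ, rfl⟩
  have h3 : (Real.exp (-(ε * (mu B k : ℝ) / 2)) *
        Real.exp (-(YY T 1 (2 * zz T B k) k (WW R k (j + 1) q) τ))) *
          Real.exp (YY T 1 (2 * zz T B k) k (WW R k (j + 1) q) h) ≤ X2t T B ε R τ h := by
    unfold X2t
    have a1 : (Real.exp (-(ε * (mu B k : ℝ) / 2)) *
        Real.exp (-(YY T 1 (2 * zz T B k) k (WW R k (j + 1) q) τ))) *
          Real.exp (YY T 1 (2 * zz T B k) k (WW R k (j + 1) q) h) ≤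
        ∑ q ∈ univ.filter (fun q : PT N (mu B) (j + 1) => UD T B ε R j q (tst T (j + 1) τ)),
        (Real.exp (-(ε * (mu B k : ℝ) / 2)) *
        Real.exp (-(YY T 1 (2 * zz T B k) k (WW R k (j + 1) q) τ))) *
          Real.exp (YY T 1 (2 * zz T B k) k (WW R k (j + 1) q) h) :=
      single_le_sum (f := fun q => (Real.exp (-(ε * (mu B k : ℝ) / 2)) *
        Real.exp (-(YY T 1 (2 * zz T B k) k (WW R k (j + 1) q) τ))) *
          Real.exp (YY T 1 (2 * zz T B k) k (WW R k (j + 1) q) h))
        (fun q _ => by positivity) (by rw [mem_filter]; exact ⟨mem_univ _, hUD⟩)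
    refine a1.trans ?_
    have a2 : ∑ q ∈ univ.filter (fun q : PT N (mu B) (j + 1) => UD T B ε R j q (tst T (j + 1) τ)),
        (Real.exp (-(ε * (mu B k : ℝ) / 2)) *
        Real.exp (-(YY T 1 (2 * zz T B k) k (WW R k (j + 1) q) τ))) *
          Real.exp (YY T 1 (2 * zz T B k) k (WW R k (j + 1) q) h) ≤
        ∑ k ∈ range (j + 1),
        ∑ q ∈ univ.filter (fun q : PT N (mu B) (j + 1) => UD T B ε R j q (tst T (j + 1) τ)),
        (Real.exp (-(ε * (mu B k : ℝ) / 2)) *
        Real.exp (-(YY T 1 (2 * zz T B k) k (WW R k (j + 1) q) τ))) *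
          Real.exp (YY T 1 (2 * zz T B k) k (WW R k (j + 1) q) h) :=
      single_le_sum (f := fun k =>
        ∑ q ∈ univ.filter (fun q : PT N (mu B) (j + 1) => UD T B ε R j q (tst T (j + 1) τ)),
        (Real.exp (-(ε * (mu B k : ℝ) / 2)) *
        Real.exp (-(YY T 1 (2 * zz T B k) k (WW R k (j + 1) q) τ))) *
          Real.exp (YY T 1 (2 * zz T B k) k (WW R k (j + 1) q) h))
        (fun k _ => by positivity) (mem_range.mpr (by omega))
    refine a2.trans ?_
    exact single_le_sum (f := fun j => ∑ k ∈ range (j + 1),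
        ∑ q ∈ univ.filter (fun q : PT N (mu B) (j + 1) => UD T B ε R j q (tst T (j + 1) τ)),
        (Real.exp (-(ε * (mu B k : ℝ) / 2)) *
        Real.exp (-(YY T 1 (2 * zz T B k) k (WW R k (j + 1) q) τ))) *
          Real.exp (YY T 1 (2 * zz T B k) k (WW R k (j + 1) q) h))
        (fun j _ => by positivity) (mem_range.mpr hj)
  have h4 := (h3.trans h2).trans_lt h1
  rw [← Real.exp_add, ← Real.exp_add, Real.exp_lt_one_iff] at h4
  unfold YY at h4
  have h5 : ((tst T (k + 1) h ∩ WW R k (j + 1) q).card : ℝ) ≤ 2 * nn T B (k + 1) := by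
    rcases Nat.eq_zero_or_pos T with hT | hT
    · omega
    have h6 : tst T (k + 1) h ∩ WW R k (j + 1) q ⊆ WW R k (j + 1) q := inter_subset_right
    have h7 : (WW R k (j + 1) q).card ≤ 2 * nn T B (k + 1) := by
      unfold WW
      refine (card_union_le _ _).trans ?_
      rw [hR.card (j + 1) (by omega)]
      have h1 := (card_HU (R := R) k (j + 1) q).trans (sum_mu_le hB hTB (j + 1) (by omega))
      have h2 := nn_ge (T := T) hB (k + 1)
      have h3 := nn_anti (T := T) hB (show k + 1 ≤ j + 1 by omega)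
      omega
    exact_mod_cast (card_le_card h6).trans h7
  have h6 : zz T B k * ((tst T (k + 1) h ∩ WW R k (j + 1) q).card : ℝ) ≤ 2 := by
    have hn : (0 : ℝ) < nn T B (k + 1) := by unfold nn; positivity
    have h7 : zz T B k * ((tst T (k + 1) h ∩ WW R k (j + 1) q).card : ℝ) ≤
        zz T B k * (2 * nn T B (k + 1)) := mul_le_mul_of_nonneg_left h5 (zz_nonneg _ _ _)
    refine h7.trans ?_
    unfold zz
    have h8 : 1 / ((B : ℝ) * (nn T B (k + 1) : ℝ)) * (2 * nn T B (k + 1)) = 2 / B := by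
      field_simp
    rw [h8, div_le_iff₀ (by linarith)]
    linarith
  have h7 : 0 ≤ zz T B k * ((tst T (k + 1) τ ∩ WW R k (j + 1) q).card : ℝ) := by
    have := zz_nonneg T B k
    positivity
  have h8 : (8 : ℝ) ≤ ε * mu B k := by
    have h9 : (B : ℝ) ≤ mu B k := by
      unfold mu; push_cast
      calc (B : ℝ) = B ^ 1 := by ring
        _ ≤ B ^ (k + 1) := pow_le_pow_right₀ hB1 (by omega)
    have hε : 0 < ε := by
      by_contra hne
      push Not at hne
      nlinarith
    nlinarith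
  linarith

lemma XX_nil (hBig : Big T B ε) (hcard : Fintype.card N = nn T B 0) :
    XX T B ε R [] ≤ 1 / (4 * (B : ℝ) ^ T) := by
  classical
  refine le_trans ?_ hBig.bad
  have hB1 : (1 : ℝ) ≤ B := by
    have h1 := hBig.BlT
    have h2 : (1 : ℝ) ≤ T := by exact_mod_cast hBig.one
    nlinarith
  have hX1 : X1 T B ε R [] ≤ (T : ℝ) * Real.exp (-(ε ^ 2 * (B : ℝ) / 2)) := by
    unfold X1
    have h1 : ∀ k ∈ range T, ∑ p : PT N (mu B) k, Real.exp (-(ε ^ 2 * (mu B k : ℝ))) *
        Real.exp (YY T ε ((Real.exp ε - 1) * zz T B k) k (R k p) []) ≤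
        Real.exp (-(ε ^ 2 * (B : ℝ) / 2)) := by
      intro k hk
      rw [mem_range] at hk
      have h2 : ∀ p : PT N (mu B) k, YY T ε ((Real.exp ε - 1) * zz T B k) k (R k p) [] = 0 := by
        intro p
        unfold YY
        have h3 : psd T k ([] : List (N × Bool)) = ∅ := by
          ext i; rw [mem_psd]; simp; omega
        rw [h3, tst_nil (by omega)]
        simp
      simp only [h2, Real.exp_zero, mul_one]
      rw [sum_const, card_univ, card_PT, hcard, nsmul_eq_mul]
      push_cast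
      exact hBig.nodes k hk.le
    refine (sum_le_sum h1).trans ?_
    rw [sum_const, card_range, nsmul_eq_mul]
  have hX2 : X2 T B ε R [] = 0 := by
    unfold X2 X2t
    simp only [List.tails, List.map_cons, List.map_nil, List.sum_cons, List.sum_nil, add_zero]
    apply sum_eq_zero
    intro j hj
    rw [mem_range] at hj
    apply sum_eq_zero
    intro k _
    rw [filter_eq_empty_iff.mpr]
    · simp
    · intro q _ hUD
      unfold UD at hUD
      rw [tst_nil (by omega)] at hUD
      simp only [empty_inter, card_empty, Nat.cast_zero, mul_zero, zero_div, zero_sub] at hUD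
      have := hBig.epos
      have : 0 ≤ ε * (mu B (j + 1) : ℝ) := by positivity
      linarith
  unfold XX
  rw [hX2, rem_nil, hcard]
  unfold CC
  push_cast
  linarith

/-- the majorant -/
noncomputable def VV (T B : ℕ) (ε : ℝ) (R : ∀ k, PT N (mu B) k → Finset N)
    (h : List (N × Bool)) : ℝ :=
  2 * (4 * (B : ℝ) ^ (T + 1) + 2 * (B : ℝ) ^ (T + 1) * (B : ℝ) ^ T * MM T B ε R h)

theorem exists_V (hBig : Big T B ε) (hcard : Fintype.card N = nn T B 0)
    (hR : IsReg T B ε R) :
    ∃ V : List (N × Bool) → ℝ, V [] ≤ 9 * (B : ℝ) ^ (T + 1) ∧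
      (∀ h i, (i, false) ∉ h → 0 < cur T h i →
        zz T B (cur T h i - 1) * V ((i, true) :: h) +
          (1 - zz T B (cur T h i - 1)) * V ((i, false) :: h) ≤ V h) ∧
      (∀ h, Valid T h → ∀ (q : PT N (mu B) T) (A : Finset N), A ⊆ WW R 0 T q →
        (∀ i ∈ A, (i, false) ∉ h) → 2 * ∑ i ∈ A, (av T B (cur T h i) : ℝ) ≤ V h) := by
  have hT1 : (1 : ℝ) ≤ T := by exact_mod_cast hBig.one
  have hε := hBig.epos
  have hBT := hBig.BlT
  have hεT := hBig.eT
  have hBr : (1 : ℝ) ≤ B := by nlinarith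
  have hB : 1 ≤ B := by exact_mod_cast hBr
  have hTB : T ≤ B := by
    have : (T : ℝ) ≤ B := by nlinarith
    exact_mod_cast this
  have hε1 : ε ≤ 1 := by nlinarith
  have hεB : 8 ≤ ε * B := by
    have h1 := hBig.Blarge
    rw [div_le_iff₀ hε] at h1; linarith
  refine ⟨VV T B ε R, ?_, ?_, ?_⟩
  · have h1 : MM T B ε R [] ≤ XX T B ε R [] := by
      unfold MM
      split_ifs with hb
      · obtain ⟨τ, h1, h2⟩ := hb
        rw [List.suffix_nil] at h1
        subst h1; exact h2
      · exact le_rfl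
    have h2 := h1.trans (XX_nil hBig hcard)
    have h3 : (0 : ℝ) < (B : ℝ) ^ T := by positivity
    have h4 : (B : ℝ) ^ T * MM T B ε R [] ≤ 1 / 4 := by
      calc (B : ℝ) ^ T * MM T B ε R [] ≤ (B : ℝ) ^ T * (1 / (4 * (B : ℝ) ^ T)) :=
            mul_le_mul_of_nonneg_left h2 h3.le
        _ = 1 / 4 := by field_simp
    unfold VV
    have h5 : (0 : ℝ) < (B : ℝ) ^ (T + 1) := by positivity
    nlinarith
  · intro h i hal h0
    have h1 := MM_step (R := R) hε hB hcard hR hal h0
    unfold VV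
    have h2 : (0 : ℝ) ≤ 4 * (B : ℝ) ^ (T + 1) * (B : ℝ) ^ T := by positivity
    nlinarith
  · intro h hv q A hA hal
    by_cases hb : Bad T B ε R h
    · have h1 : MM T B ε R h = 1 := by unfold MM; rw [if_pos hb]
      unfold VV
      rw [h1]
      have h2 : (A.card : ℝ) ≤ 2 * (B : ℝ) ^ (T + 1) := by
        have h3 : (WW R 0 T q).card ≤ 2 * B ^ (T + 1) := by
          unfold WW
          refine (card_union_le _ _).trans ?_
          rw [hR.card T le_rfl]
          have h1 := (card_HU (R := R) 0 T q).trans (sum_mu_le hB hTB T le_rfl)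
          have h4 : nn T B T = B ^ (T + 1) := by unfold nn; simp
          omega
        exact_mod_cast (card_le_card hA).trans h3
      have h3 : ∑ i ∈ A, (av T B (cur T h i) : ℝ) ≤ ∑ i ∈ A, (B : ℝ) ^ T := by
        apply sum_le_sum
        intro i _
        unfold av
        push_cast
        exact pow_le_pow_right₀ hBr (by omega)
      rw [sum_const, nsmul_eq_mul] at h3
      have h4 : (A.card : ℝ) * (B : ℝ) ^ T ≤ 2 * (B : ℝ) ^ (T + 1) * (B : ℝ) ^ T :=
        mul_le_mul_of_nonneg_right h2 (by positivity)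
      have h5 : (0 : ℝ) < (B : ℝ) ^ (T + 1) := by positivity
      linarith
    · have hX : ∀ τ, τ <:+ h → XX T B ε R τ < 1 := by
        intro τ hτ
        by_contra hne
        push Not at hne
        exact hb ⟨τ, hτ, hne⟩
      have h1 := tele hBig hcard hR h hv
        (fun h' hh' k hk p => P1_of hε hε1 (hX h' hh') k hk p)
        (fun τ hτ j hj k hk q' hUD => P2_of hB hTB hεB hR (hX h List.suffix_rfl) τ hτ j hj k hk q' hUD)
        q A hA hal
      unfold VV
      have h2 := MM_nonneg (T := T) (B := B) (ε := ε) (R := R) h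
      have h3 : 0 ≤ 2 * (B : ℝ) ^ (T + 1) * (B : ℝ) ^ T * MM T B ε R h := by positivity
      linarith

end

end K3h61.CA
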