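import Pool.Agent.K3h61.CA.Game
import Pool.Agent.K3h18.CA.StepOne

/-!
# Clock auctions: existence of the region structure
-/

namespace K3h61.CA

open Finset

section
variable {N : Type} [DecidableEq N] [Fintype N]

/-- one good step -/
def GStep (T B : ℕ) (ε : ℝ) (k : ℕ) (R : PT N (mu B) k → Finset N)
    (R' : PT N (mu B) (k + 1) → Finset N) : Prop :=
  (∀ q, R' q ⊆ R (par q)) ∧ (∀ q, (R' q).card = nn T B (k + 1)) ∧
    ∀ Z : Finset N, Nat.card {q : PT N (mu B) (k + 1) // ((Z ∩ R' q).card : ℝ) <
      (1 - ε) * ((Z ∩ R (par q)).card : ℝ) / (nn T B (k + 1) : ℝ) - ε * (mu B (k + 1) : ℝ)} ≤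
      Fintype.card N

open Classical in
/-- the regions, by recursion -/
noncomputable def Rs (T B : ℕ) (ε : ℝ) : ∀ k, PT N (mu B) k → Finset N
  | 0 => fun _ => univ
  | k + 1 => if h : ∃ R' : PT N (mu B) (k + 1) → Finset N, GStep T B ε k (Rs T B ε k) R'
      then Classical.choose h else fun _ => ∅

theorem exists_reg {T B : ℕ} {ε : ℝ} (hBig : Big T B ε)
    (hcard : Fintype.card N = nn T B 0) :
    ∃ R : ∀ k, PT N (mu B) k → Finset N, IsReg T B ε R := by
  classical
  have hT1 : (1 : ℝ) ≤ T := by exact_mod_cast hBig.one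
  have hε := hBig.epos
  have hBT := hBig.BlT
  have hεT := hBig.eT
  have hBr : (1 : ℝ) ≤ B := by nlinarith
  have hB : 1 ≤ B := by exact_mod_cast hBr
  have hε1 : ε < 1 := by nlinarith
  have key : ∀ k < T, (∀ p, (Rs (N := N) T B ε k p).card = nn T B k) →
      GStep T B ε k (Rs (N := N) T B ε k) (Rs (N := N) T B ε (k + 1)) := by
    intro k hk hc
    have hex : ∃ R' : PT N (mu B) (k + 1) → Finset N, GStep T B ε k (Rs (N := N) T B ε k) R' := by
      obtain ⟨R', h1, h2, h3⟩ := K3h18.CA.t_A1 N (PT N (mu B) k) (Fin (mu B k) → N)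
        (nn T B (k + 1)) (Rs (N := N) T B ε k) ε (mu B (k + 1)) (by unfold nn; positivity) hε hε1
        (by positivity) (fun p => by rw [hc p, nn_sq hk]) (by
          have h4 : Fintype.card (PT N (mu B) k × (Fin (mu B k) → N)) =
              Fintype.card (PT N (mu B) (k + 1)) := Fintype.card_congr (Equiv.refl _)
          rw [h4, card_PT, hcard]
          have h5 := hBig.nodes (k + 1) (by omega)
          have h6 := hBig.small3
          push_cast at h5 ⊢
          nlinarith)
      exact ⟨R', h1, h2, h3⟩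
    have h1 : Rs (N := N) T B ε (k + 1) = Classical.choose hex := by
      show (if h : ∃ R' : PT N (mu B) (k + 1) → Finset N, GStep T B ε k (Rs T B ε k) R'
        then Classical.choose h else fun _ => ∅) = _
      rw [dif_pos hex]
    rw [h1]
    exact Classical.choose_spec hex
  have hc : ∀ k ≤ T, ∀ p, (Rs (N := N) T B ε k p).card = nn T B k := by
    intro k
    induction k with
    | zero => intro _ p; simp [Rs, hcard]
    | succ k ih =>
      intro hk p
      exact (key k (by omega) (ih (by omega))).2.1 p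
  refine ⟨Rs (N := N) T B ε, ⟨fun p => rfl, hc, ?_, ?_⟩⟩
  · intro k hk q
    exact (key k hk (hc k hk.le)).1 q
  · intro k hk Z
    have h1 := (key k hk (hc k hk.le)).2.2 Z
    rw [Nat.card_eq_fintype_card, Fintype.card_subtype] at h1
    exact h1

end

end K3h61.CA
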