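import Pool.Agent.K3h61.CA.Defs

/-!
# Clock auctions (MP_9cf523_lc): statements of the bricks
-/

namespace K3h61.CA

open Finset

/-- brick E: for every `T ≥ 1` there is a `B` with all the numerical conditions. -/
def S_E : Prop := ∀ T : ℕ, 1 ≤ T → ∃ B : ℕ, Big T B (1 / (100 * (T : ℝ)))

/-- brick A1: one step of the construction of the regions (probabilistic method). Every region
`R p` has `n * n` elements; every node `p` gets `|H|` child regions of `n` elements each, so
that for every set `Z` at most `|N|` child regions are under-dense for `Z`. -/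
def S_A1 : Prop :=
  ∀ (N P H : Type) [Fintype N] [Fintype P] [Fintype H] [DecidableEq N]
    (n : ℕ) (R : P → Finset N) (ε M : ℝ), 0 < n → 0 < ε → ε < 1 → 0 ≤ M →
    (∀ p, (R p).card = n * n) →
    3 * ((Fintype.card (P × H) : ℕ) : ℝ) * Real.exp (-(ε ^ 2 * M)) ≤ 1 →
    ∃ R' : P × H → Finset N, (∀ q, R' q ⊆ R q.1) ∧ (∀ q, (R' q).card = n) ∧
      ∀ Z : Finset N, Nat.card {q : P × H // ((Z ∩ R' q).card : ℝ) <
        (1 - ε) * ((Z ∩ R q.1).card : ℝ) / (n : ℝ) - ε * M} ≤ Fintype.card N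

/-- brick D: with probability at least 1/2 some feasible set has value at least `T u / 4`,
`u = B ^ (T+1)`. -/
def S_D : Prop :=
  ∀ (N : Type) [Fintype N] [DecidableEq N] (T B : ℕ) (ε : ℝ) (R : ∀ k, PT N (mu B) k → Finset N),
    Big T B ε → Fintype.card N = nn T B 0 → IsReg T B ε R →
    ∀ G : Finset (N → ℕ),
      (∀ d ∈ Fintype.piFinset (fun _ : N => range (T + 1)),
        (∃ q : PT N (mu B) T, ∃ S ⊆ WW R 0 T q,
          (T : ℝ) * (B : ℝ) ^ (T + 1) / 4 ≤ ∑ i ∈ S, (av T B (d i) : ℝ)) → d ∈ G) →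
      1 / 2 ≤ ∑ d ∈ G.filter (fun d => d ∈ Fintype.piFinset (fun _ : N => range (T + 1))),
        ∏ i, om T B (d i)

end K3h61.CA
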