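import Pool.Agent.K3h61.CA.Hist

/-!
# Clock auctions: the deterministic telescoping argument
-/

namespace K3h61.CA

open Finset

/-- the telescoping inequality -/
lemma tele_real (T : ℕ) (g Y : ℕ → ℝ) (r e : ℝ) (hr : 1 ≤ r) (he : 0 ≤ e)
    (hg : ∀ k ≤ T, 0 ≤ g k) (hY0 : 0 ≤ Y 0)
    (h1 : ∀ k < T, g k ≤ r * Y (k + 1) + e - Y k) (h2 : g T ≤ 1 - Y T) :
    ∑ k ∈ range (T + 1), g k ≤ r ^ T * (1 + T * e) := by
  have key : ∀ m ≤ T, ∑ k ∈ range m, g k ≤ r ^ m * Y m + r ^ m * (m * e) := by
    intro m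
    induction m with
    | zero => intro _; simpa using hY0
    | succ m ih =>
      intro hm
      have ih := ih (by omega)
      rw [sum_range_succ]
      have h3 := h1 m (by omega)
      have h4 := hg m (by omega)
      have hrm : 1 ≤ r ^ m := one_le_pow₀ hr
      have h5 : (r ^ m - 1) * Y m ≤ (r ^ m - 1) * (r * Y (m + 1) + e) := by
        apply mul_le_mul_of_nonneg_left _ (by linarith)
        linarith
      have h6 : r ^ m * (m * e) ≤ r ^ (m + 1) * (m * e) := by
        apply mul_le_mul_of_nonneg_right _ (by positivity)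
        exact pow_le_pow_right₀ hr (by omega)
      have h7 : r ^ m * e ≤ r ^ (m + 1) * e := by
        apply mul_le_mul_of_nonneg_right _ he
        exact pow_le_pow_right₀ hr (by omega)
      push_cast
      have : r ^ (m + 1) * Y (m + 1) = r ^ m * (r * Y (m + 1)) := by ring
      nlinarith
  have h3 := key T le_rfl
  rw [sum_range_succ]
  have hrT : 1 ≤ r ^ T := one_le_pow₀ hr
  have hYT : Y T ≤ 1 := by have := hg T le_rfl; linarith
  nlinarith

section
variable {N : Type} [DecidableEq N] [Fintype N]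

theorem tele {T B : ℕ} {ε : ℝ} {R : ∀ k, PT N (mu B) k → Finset N} (hBig : Big T B ε)
    (hcard : Fintype.card N = nn T B 0) (hR : IsReg T B ε R)
    (h : List (N × Bool)) (hv : Valid T h)
    (P1 : ∀ h' : List (N × Bool), h' <:+ h → ∀ k < T, ∀ p : PT N (mu B) k,
      ((psd T k h' ∩ R k p).card : ℝ) ≤
        (1 + ε) * zz T B k * ((tst T (k + 1) h' ∩ R k p).card : ℝ) + ε * (mu B k : ℝ))
    (P2 : ∀ τ : List (N × Bool), τ <:+ h → ∀ j < T, ∀ k ≤ j, ∀ q : PT N (mu B) (j + 1),
      UD T B ε R j q (tst T (j + 1) τ) →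
      ((psd T k h ∩ WW R k (j + 1) q).card : ℝ) - ((psd T k τ ∩ WW R k (j + 1) q).card : ℝ)
        ≤ ε * (mu B k : ℝ))
    (q : PT N (mu B) T) (A : Finset N) (hA : A ⊆ WW R 0 T q)
    (halive : ∀ i ∈ A, (i, false) ∉ h) :
    ∑ i ∈ A, (av T B (cur T h i) : ℝ) ≤ 4 * (B : ℝ) ^ (T + 1) := by
  classical
  obtain ⟨hT1, hε, hεT, hBl, hBT, -, -, -, -⟩ := hBig
  have hT1' : (1 : ℝ) ≤ T := by exact_mod_cast hT1
  have hε1 : ε ≤ 1 / 100 := by nlinarith
  have hB0 : (0 : ℝ) < B := by nlinarith
  have hB0' : 0 < B := by exact_mod_cast hB0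
  have hB1' : 1 ≤ B := hB0'
  have hB1 : (1 : ℝ) ≤ B := by exact_mod_cast hB1'
  have hεB : 8 ≤ ε * B := by
    rw [div_le_iff₀ hε] at hBl; linarith
  haveI : Nonempty N := by
    rw [← Fintype.card_pos_iff, hcard]; unfold nn; positivity
  obtain ⟨nd, hndq, hnd⟩ := exists_anc T q
  subst hndq
  -- basic inclusions
  have hdsub : ∀ l < T, hd R l (nd (l + 1)) ⊆ R l (nd l) := by
    intro l hl i hi
    unfold hd at hi
    rw [mem_inter, hnd l hl] at hi
    exact hi.2
  have Rsub : ∀ k j, k ≤ j → j ≤ T → R j (nd j) ⊆ R k (nd k) := by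
    intro k j hkj
    induction j, hkj using Nat.le_induction with
    | base => intro _; exact Subset.rfl
    | succ j hkj ih =>
      intro hj
      refine Subset.trans ?_ (ih (by omega))
      have := hR.sub j (by omega) (nd (j + 1))
      rwa [hnd j (by omega)] at this
  have mHU := fun k i j hj => mem_HU R (J := T) (nd := nd) hnd k i j hj
  have WWR : ∀ k ≤ T, WW R k T (nd T) ⊆ R k (nd k) := by
    intro k hk i hi
    unfold WW at hi
    rw [mem_union, mHU k i T le_rfl] at hi
    rcases hi with ⟨l, h1, h2, h3⟩ | hi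
    · exact Rsub k l h1 (by omega) (hdsub l h2 h3)
    · exact Rsub k T hk le_rfl hi
  have WWW : ∀ j < T, ∀ k ≤ j, WW R k T (nd T) ⊆ WW R k (j + 1) (nd (j + 1)) := by
    intro j hj k hk i hi
    unfold WW at hi ⊢
    rw [mem_union, mHU k i T le_rfl] at hi
    rw [mem_union, mHU k i (j + 1) (by omega)]
    rcases hi with ⟨l, h1, h2, h3⟩ | hi
    · by_cases hl : l < j + 1
      · left; exact ⟨l, h1, hl, h3⟩
      · right; exact Rsub (j + 1) l (by omega) (by omega) (hdsub l h2 h3)
    · right; exact Rsub (j + 1) T (by omega) le_rfl hi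
  -- times
  set L := h.length with hL
  let hs : ℕ → List (N × Bool) := fun s => h.drop (L - s)
  have hs0 : hs 0 = [] := by simp [hs, hL]
  have hsL : hs L = h := by simp [hs]
  have hs_suf : ∀ s, hs s <:+ h := fun s => List.drop_suffix _ _
  have hs_mono : ∀ s s', s ≤ s' → hs s <:+ hs s' := by
    intro s s' hss
    have : hs s = (hs s').drop ((L - s) - (L - s')) := by
      simp only [hs, List.drop_drop]
      congr 1; omega
    rw [this]; exact List.drop_suffix _ _
  have hs_succ : ∀ s < L, ∃ x, hs (s + 1) = x :: hs s := by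
    intro s hs'
    have h1 : L - (s + 1) < h.length := by omega
    refine ⟨h[L - (s + 1)], ?_⟩
    simp only [hs]
    rw [List.drop_eq_getElem_cons h1]
    congr 2; omega
  have hs_val : ∀ s, Valid T (hs s) := by
    intro s
    obtain ⟨l, hl⟩ := hs_suf s
    rw [← hl] at hv
    exact hv.of_append
  let Ok : ℕ → ℕ → Prop := fun k s => ∀ s' ≤ s, ∀ j, k ≤ j → j < T →
    ¬ UD T B ε R j (nd (j + 1)) (tst T (j + 1) (hs s'))
  let σ : ℕ → ℕ := fun k => Nat.findGreatest (Ok k) L
  have Ok0 : ∀ k, Ok k 0 := by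
    intro k s' hs' j hkj hj hUD
    obtain rfl : s' = 0 := by omega
    unfold UD at hUD
    rw [hs0, tst_nil (by omega)] at hUD
    simp only [empty_inter, card_empty, Nat.cast_zero, mul_zero, zero_div, zero_sub] at hUD
    have : 0 ≤ ε * (mu B (j + 1) : ℝ) := by positivity
    linarith
  have σOk : ∀ k, Ok k (σ k) := fun k => Nat.findGreatest_spec (Nat.zero_le L) (Ok0 k)
  have σL : ∀ k, σ k ≤ L := fun k => Nat.findGreatest_le L
  have σmono : ∀ k, σ k ≤ σ (k + 1) := by
    intro k
    apply Nat.findGreatest_mono _ le_rfl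
    intro s hs s' hs' j hkj hj
    exact hs s' hs' j (by omega) hj
  have σT : σ T = L := by
    apply le_antisymm (σL T)
    apply Nat.le_findGreatest le_rfl
    intro s' hs' j hkj hj; omega
  have σbad : ∀ k, σ k < L → ∃ j, k ≤ j ∧ j < T ∧
      UD T B ε R j (nd (j + 1)) (tst T (j + 1) (hs (σ k + 1))) := by
    intro k hk
    have h1 : ¬ Ok k (σ k + 1) :=
      Nat.findGreatest_is_greatest (P := Ok k) (Nat.lt_succ_self _) (by omega)
    simp only [Ok, not_forall, not_not] at h1
    obtain ⟨s', hs', j, hkj, hj, hud⟩ := h1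
    have : s' = σ k + 1 := by
      by_contra hne
      exact σOk k s' (by omega) j hkj hj hud
    subst this
    exact ⟨j, hkj, hj, hud⟩
  -- masses
  have hmu : ∀ k, (0 : ℝ) < mu B k := by intro k; unfold mu; positivity
  have hmuB : ∀ k, (B : ℝ) ≤ mu B k := by
    intro k; unfold mu; push_cast
    calc (B : ℝ) = B ^ 1 := by ring
      _ ≤ B ^ (k + 1) := pow_le_pow_right₀ hB1 (by omega)
  let y : ℕ → ℕ → ℝ := fun k s => ((tst T k (hs s) ∩ R k (nd k)).card : ℝ) / mu B k
  have y_mono : ∀ k s s', s ≤ s' → y k s ≤ y k s' := by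
    intro k s s' hss
    apply div_le_div_of_nonneg_right _ (hmu k).le
    obtain ⟨l, hl⟩ := hs_mono s s' hss
    have := hs_val s'
    rw [← hl] at this ⊢
    exact_mod_cast card_le_card (inter_subset_inter_right (tst_mono T k l _ this))
  let AA : ℕ → Finset N := fun k => (A ∩ WW R k T (nd T)).filter (fun i => cur T h i = k)
  let g : ℕ → ℝ := fun k => ((AA k).card : ℝ) / mu B k
  -- the main count
  have main : ∀ k < T, ((AA k).card : ℝ) ≤ ((psd T k (hs (σ k)) ∩ R k (nd k)).card : ℝ)
      - ((tst T k (hs (σ k)) ∩ R k (nd k)).card : ℝ) + ε * mu B k + 1 := by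
    intro k hk
    set τ := hs (σ k) with hτ
    obtain ⟨l, hl⟩ := hs_suf (σ k)
    have hcardd : (((psd T k τ ∩ R k (nd k)) \ (tst T k τ ∩ R k (nd k))).card : ℝ) =
        ((psd T k τ ∩ R k (nd k)).card : ℝ) - ((tst T k τ ∩ R k (nd k)).card : ℝ) := by
      rw [card_sdiff_of_subset (inter_subset_inter_right (tst_sub_psd T k τ)), Nat.cast_sub]
      exact card_le_card (inter_subset_inter_right (tst_sub_psd T k τ))
    have hcl : ∀ i ∈ AA k, cur T τ i ≤ k →
        i ∈ (psd T k τ ∩ R k (nd k)) \ (tst T k τ ∩ R k (nd k)) := by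
      intro i hi hcur
      simp only [AA, mem_filter, mem_inter] at hi
      obtain ⟨⟨hiA, hiW⟩, hik⟩ := hi
      have hge : k ≤ cur T τ i := by
        rw [← hik, ← hl]; exact cur_append_le T l τ i
      have heq : cur T τ i = k := le_antisymm hcur hge
      rw [mem_sdiff, mem_inter, mem_inter, mem_psd, mem_tst]
      refine ⟨⟨hcur, WWR k hk.le hiW⟩, ?_⟩
      rintro ⟨hh | ⟨-, hh⟩, -⟩
      · omega
      · apply halive i hiA
        rw [← hl]; exact List.mem_append_right _ hh
    rcases (σL k).lt_or_eq with hlt | heq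
    · obtain ⟨j, hkj, hj, hud⟩ := σbad k hlt
      have hP2 := P2 _ (hs_suf (σ k + 1)) j hj k hkj (nd (j + 1)) hud
      obtain ⟨x, hx⟩ := hs_succ (σ k) hlt
      have hone : ((psd T k (hs (σ k + 1)) ∩ WW R k (j + 1) (nd (j + 1))).card : ℝ) ≤
          ((psd T k τ ∩ WW R k (j + 1) (nd (j + 1))).card : ℝ) + 1 := by
        rw [hx]; exact_mod_cast psd_cons_card T k x _ _
      have hsub : AA k ⊆ ((psd T k τ ∩ R k (nd k)) \ (tst T k τ ∩ R k (nd k))) ∪
          ((psd T k h ∩ WW R k (j + 1) (nd (j + 1))) \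
            (psd T k τ ∩ WW R k (j + 1) (nd (j + 1)))) := by
        intro i hi
        rw [mem_union]
        by_cases hcur : cur T τ i ≤ k
        · left; exact hcl i hi hcur
        · right
          simp only [AA, mem_filter, mem_inter] at hi
          obtain ⟨⟨hiA, hiW⟩, hik⟩ := hi
          rw [mem_sdiff, mem_inter, mem_inter, mem_psd, mem_psd]
          exact ⟨⟨hik.le, WWW j hj k hkj hiW⟩, fun hh => hcur hh.1⟩
      have hsub2 : psd T k τ ∩ WW R k (j + 1) (nd (j + 1)) ⊆
          psd T k h ∩ WW R k (j + 1) (nd (j + 1)) := by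
        apply inter_subset_inter_right
        rw [← hl]; exact psd_mono T k l τ
      have hc2 : (((psd T k h ∩ WW R k (j + 1) (nd (j + 1))) \
            (psd T k τ ∩ WW R k (j + 1) (nd (j + 1)))).card : ℝ) =
          ((psd T k h ∩ WW R k (j + 1) (nd (j + 1))).card : ℝ) -
          ((psd T k τ ∩ WW R k (j + 1) (nd (j + 1))).card : ℝ) := by
        rw [card_sdiff_of_subset hsub2, Nat.cast_sub (card_le_card hsub2)]
      have h1 : ((AA k).card : ℝ) ≤
          (((psd T k τ ∩ R k (nd k)) \ (tst T k τ ∩ R k (nd k))).card : ℝ) +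
          (((psd T k h ∩ WW R k (j + 1) (nd (j + 1))) \
            (psd T k τ ∩ WW R k (j + 1) (nd (j + 1)))).card : ℝ) := by
        exact_mod_cast (card_le_card hsub).trans (card_union_le _ _)
      rw [hcardd, hc2] at h1
      linarith
    · have hτh : τ = h := by rw [hτ, heq, hsL]
      have hsub : AA k ⊆ (psd T k τ ∩ R k (nd k)) \ (tst T k τ ∩ R k (nd k)) := by
        intro i hi
        apply hcl i hi
        simp only [AA, mem_filter, mem_inter] at hi
        rw [hτh]; exact hi.2.le
      have h1 : ((AA k).card : ℝ) ≤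
          (((psd T k τ ∩ R k (nd k)) \ (tst T k τ ∩ R k (nd k))).card : ℝ) := by
        exact_mod_cast card_le_card hsub
      rw [hcardd] at h1
      have : 0 ≤ ε * (mu B k : ℝ) := by positivity
      linarith
  -- one step of the telescope
  have h1ε : 0 < 1 - ε := by linarith
  set r : ℝ := (1 + ε) / (1 - ε) with hr
  have hr1 : 1 ≤ r := by rw [hr, le_div_iff₀ h1ε]; linarith
  have hr2 : r ≤ 1 + 3 * ε := by rw [hr, div_le_iff₀ h1ε]; nlinarith
  have step : ∀ k < T, g k ≤ r * y (k + 1) (σ (k + 1)) + (r + 3) * ε - y k (σ k) := by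
    intro k hk
    have h1 := main k hk
    have h2 := P1 _ (hs_suf (σ k)) k hk (nd k)
    have h3 := σOk k (σ k) le_rfl k le_rfl hk
    unfold UD at h3
    rw [hnd k hk] at h3
    push Not at h3
    set a : ℝ := ((tst T (k + 1) (hs (σ k)) ∩ R k (nd k)).card : ℝ) with ha
    set b : ℝ := ((tst T (k + 1) (hs (σ k)) ∩ R (k + 1) (nd (k + 1))).card : ℝ) with hb
    have hn : (0 : ℝ) < nn T B (k + 1) := by unfold nn; positivity
    have hmuk : (mu B (k + 1) : ℝ) = B * mu B k := by unfold mu; push_cast; ring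
    have hy : b = y (k + 1) (σ k) * mu B (k + 1) := by
      simp only [y]
      rw [div_mul_cancel₀ _ (hmu (k + 1)).ne']
    have h4 : zz T B k * a ≤ mu B k * (y (k + 1) (σ k) + ε) / (1 - ε) := by
      rw [le_div_iff₀ h1ε]
      unfold zz
      have h5 : (1 - ε) * a / nn T B (k + 1) ≤ B * (mu B k * (y (k + 1) (σ k) + ε)) := by
        have : (1 - ε) * a / nn T B (k + 1) ≤ b + ε * mu B (k + 1) := by linarith
        refine this.trans (le_of_eq ?_)
        rw [hy, hmuk]; ring
      have h6 : 1 / ((B : ℝ) * (nn T B (k + 1) : ℝ)) * a * (1 - ε) =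
          ((1 - ε) * a / nn T B (k + 1)) / B := by
        field_simp
      rw [h6, div_le_iff₀ hB0]
      linarith
    have h7 : (1 + ε) * zz T B k * a ≤ mu B k * (r * (y (k + 1) (σ k) + ε)) := by
      have : (1 + ε) * (zz T B k * a) ≤ (1 + ε) * (mu B k * (y (k + 1) (σ k) + ε) / (1 - ε)) :=
        mul_le_mul_of_nonneg_left h4 (by linarith)
      calc (1 + ε) * zz T B k * a = (1 + ε) * (zz T B k * a) := by ring
        _ ≤ _ := this
        _ = _ := by rw [hr]; ring
    have h8 : y (k + 1) (σ k) ≤ y (k + 1) (σ (k + 1)) := y_mono _ _ _ (σmono k)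
    have h9 : (1 : ℝ) ≤ ε * mu B k := by
      have := hmuB k
      nlinarith
    have h10 : ((tst T k (hs (σ k)) ∩ R k (nd k)).card : ℝ) = y k (σ k) * mu B k := by
      simp only [y]
      rw [div_mul_cancel₀ _ (hmu k).ne']
    rw [h10] at h1
    simp only [g]
    rw [div_le_iff₀ (hmu k)]
    have h11 : r * y (k + 1) (σ k) ≤ r * y (k + 1) (σ (k + 1)) :=
      mul_le_mul_of_nonneg_left h8 (by linarith)
    have h12 : mu B k * (r * (y (k + 1) (σ k) + ε)) ≤
        mu B k * (r * y (k + 1) (σ (k + 1)) + r * ε) := by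
      apply mul_le_mul_of_nonneg_left _ (hmu k).le
      nlinarith
    nlinarith
  have stepT : g T ≤ 1 - y T (σ T) := by
    have hsub : AA T ⊆ R T (nd T) \ (tst T T h ∩ R T (nd T)) := by
      intro i hi
      simp only [AA, mem_filter, mem_inter] at hi
      obtain ⟨⟨hiA, hiW⟩, hik⟩ := hi
      rw [mem_sdiff, mem_inter, mem_tst]
      refine ⟨WWR T le_rfl hiW, ?_⟩
      rintro ⟨hh | ⟨-, hh⟩, -⟩
      · omega
      · exact halive i hiA hh
    have h1 := card_le_card hsub
    rw [card_sdiff_of_subset inter_subset_right] at h1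
    have h2 : (tst T T h ∩ R T (nd T)).card ≤ (R T (nd T)).card := card_le_card inter_subset_right
    have h3 : ((AA T).card : ℝ) ≤ ((R T (nd T)).card : ℝ) - ((tst T T h ∩ R T (nd T)).card : ℝ) := by
      rw [← Nat.cast_sub h2]; exact_mod_cast h1
    have h4 : ((R T (nd T)).card : ℝ) = mu B T := by
      rw [hR.card T le_rfl]; unfold nn mu; simp
    simp only [g, y]
    rw [σT, hsL, div_le_iff₀ (hmu T), sub_mul, div_mul_cancel₀ _ (hmu T).ne', one_mul]
    linarith
  have hsum : ∑ k ∈ range (T + 1), g k ≤ 2 := by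
    have h0 := tele_real T g (fun k => y k (σ k)) r ((r + 3) * ε) hr1 (by positivity)
      (fun k _ => by simp only [g]; positivity) (by simp only [y]; positivity) step stepT
    have h1 : r ^ T ≤ 3 / 2 := by
      have h2 : r ≤ Real.exp (3 * ε) := by
        have := Real.add_one_le_exp (3 * ε); linarith
      have h3 : r ^ T ≤ Real.exp (3 * ε) ^ T := pow_le_pow_left₀ (by linarith) h2 T
      rw [← Real.exp_nat_mul] at h3
      have h4 : (T : ℝ) * (3 * ε) ≤ 1 / 10 := by nlinarith
      have h5 : Real.exp ((T : ℝ) * (3 * ε)) ≤ Real.exp (1 / 10) := Real.exp_le_exp.mpr h4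
      have h6 : Real.exp (1 / 10) ≤ 3 / 2 := by
        have h7 := Real.add_one_le_exp (-(1 / 10 : ℝ))
        have h8 : Real.exp (1 / 10) * Real.exp (-(1 / 10)) = 1 := by
          rw [← Real.exp_add]; simp
        have h9 := Real.exp_pos (1 / 10 : ℝ)
        nlinarith
      linarith
    have h2 : (T : ℝ) * ((r + 3) * ε) ≤ 1 / 10 := by nlinarith
    have h3 : 0 ≤ r ^ T := by positivity
    nlinarith
  -- the value
  have hcurT : ∀ i, cur T h i ≤ T := fun i => cur_le T h i
  have hpoint : ∀ i ∈ A, (av T B (cur T h i) : ℝ) ≤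
      ∑ k ∈ range (T + 1), (if i ∈ AA k then (av T B k : ℝ) else 0) +
      ∑ l ∈ range T, (if i ∈ hd R l (nd (l + 1)) then (av T B (l + 1) : ℝ) else 0) := by
    intro i hi
    have hiW := hA hi
    unfold WW at hiW
    rw [mem_union, mHU 0 i T le_rfl] at hiW
    have hor : i ∈ WW R (cur T h i) T (nd T) ∨
        ∃ l, l < T ∧ l < cur T h i ∧ i ∈ hd R l (nd (l + 1)) := by
      rcases hiW with ⟨l, -, h2, h3⟩ | h3
      · by_cases hl : cur T h i ≤ l
        · left
          unfold WW
          rw [mem_union, mHU _ i T le_rfl]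
          left; exact ⟨l, hl, h2, h3⟩
        · right; exact ⟨l, h2, by omega, h3⟩
      · left
        unfold WW
        rw [mem_union]; right; exact h3
    have hn1 : 0 ≤ ∑ k ∈ range (T + 1), (if i ∈ AA k then (av T B k : ℝ) else 0) :=
      sum_nonneg (fun k _ => by split_ifs <;> positivity)
    have hn2 : 0 ≤ ∑ l ∈ range T,
        (if i ∈ hd R l (nd (l + 1)) then (av T B (l + 1) : ℝ) else 0) :=
      sum_nonneg (fun k _ => by split_ifs <;> positivity)
    rcases hor with hor | ⟨l, h1, h2, h3⟩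
    · have h4 : (if i ∈ AA (cur T h i) then (av T B (cur T h i) : ℝ) else 0) ≤
          ∑ k ∈ range (T + 1), (if i ∈ AA k then (av T B k : ℝ) else 0) :=
        single_le_sum (f := fun k => (if i ∈ AA k then (av T B k : ℝ) else 0))
          (fun k _ => by split_ifs <;> positivity)
          (mem_range.mpr (Nat.lt_succ_of_le (hcurT i)))
      have h5 : i ∈ AA (cur T h i) := by
        simp only [AA, mem_filter, mem_inter]; exact ⟨⟨hi, hor⟩, trivial⟩
      rw [if_pos h5] at h4
      linarith
    · have h4 : (if i ∈ hd R l (nd (l + 1)) then (av T B (l + 1) : ℝ) else 0) ≤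
          ∑ l ∈ range T, (if i ∈ hd R l (nd (l + 1)) then (av T B (l + 1) : ℝ) else 0) :=
        single_le_sum (f := fun l => (if i ∈ hd R l (nd (l + 1)) then (av T B (l + 1) : ℝ) else 0))
          (fun k _ => by split_ifs <;> positivity) (mem_range.mpr h1)
      rw [if_pos h3] at h4
      have h5 : (av T B (cur T h i) : ℝ) ≤ av T B (l + 1) := by
        unfold av; exact_mod_cast Nat.pow_le_pow_right hB1' (by omega)
      linarith
  have hu : ∀ k ≤ T, (av T B k : ℝ) * mu B k = (B : ℝ) ^ (T + 1) := by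
    intro k hk
    unfold av mu; push_cast
    rw [← pow_add]; congr 1; omega
  calc ∑ i ∈ A, (av T B (cur T h i) : ℝ)
      ≤ ∑ i ∈ A, (∑ k ∈ range (T + 1), (if i ∈ AA k then (av T B k : ℝ) else 0) +
      ∑ l ∈ range T, (if i ∈ hd R l (nd (l + 1)) then (av T B (l + 1) : ℝ) else 0)) :=
        sum_le_sum hpoint
    _ = ∑ k ∈ range (T + 1), ∑ i ∈ A, (if i ∈ AA k then (av T B k : ℝ) else 0) +
        ∑ l ∈ range T, ∑ i ∈ A,
          (if i ∈ hd R l (nd (l + 1)) then (av T B (l + 1) : ℝ) else 0) := by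
        rw [sum_add_distrib, sum_comm, sum_comm (s := A) (t := range T)]
    _ ≤ ∑ k ∈ range (T + 1), (B : ℝ) ^ (T + 1) * g k + ∑ l ∈ range T, (B : ℝ) ^ T := by
        apply add_le_add
        · apply sum_le_sum
          intro k hk
          rw [← sum_filter, sum_const, nsmul_eq_mul]
          have h1 : A.filter (fun i => i ∈ AA k) ⊆ AA k := by
            intro i hi; exact (mem_filter.mp hi).2
          have h2 : ((A.filter (fun i => i ∈ AA k)).card : ℝ) ≤ (AA k).card := by
            exact_mod_cast card_le_card h1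
          have h3 : ((AA k).card : ℝ) = g k * mu B k := by
            simp only [g]; rw [div_mul_cancel₀ _ (hmu k).ne']
          have h4 := hu k (by rw [mem_range] at hk; omega)
          have h5 : (0 : ℝ) ≤ av T B k := by positivity
          calc ((A.filter (fun i => i ∈ AA k)).card : ℝ) * av T B k
              ≤ (g k * mu B k) * av T B k := by
                rw [← h3]; exact mul_le_mul_of_nonneg_right h2 h5
            _ = g k * (av T B k * mu B k) := by ring
            _ = _ := by rw [h4]; ring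
        · apply sum_le_sum
          intro l hl
          rw [mem_range] at hl
          rw [← sum_filter, sum_const, nsmul_eq_mul]
          have h1 : (A.filter (fun i => i ∈ hd R l (nd (l + 1)))).card ≤ mu B l := by
            have h2 : A.filter (fun i => i ∈ hd R l (nd (l + 1))) ⊆
                univ.image (lst (nd (l + 1))) := by
              intro i hi
              have := (mem_filter.mp hi).2
              unfold hd at this
              exact (mem_inter.mp this).1
            refine (card_le_card h2).trans (card_image_le.trans ?_)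
            simp
          have h2 : ((A.filter (fun i => i ∈ hd R l (nd (l + 1)))).card : ℝ) ≤ mu B l := by
            exact_mod_cast h1
          have h5 : (0 : ℝ) ≤ av T B (l + 1) := by positivity
          calc ((A.filter (fun i => i ∈ hd R l (nd (l + 1)))).card : ℝ) * av T B (l + 1)
              ≤ (mu B l : ℝ) * av T B (l + 1) := mul_le_mul_of_nonneg_right h2 h5
            _ = (B : ℝ) ^ T := by
                unfold av mu; push_cast
                rw [← pow_add]; congr 1; omega
    _ ≤ 4 * (B : ℝ) ^ (T + 1) := by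
        rw [← mul_sum, sum_const, card_range, nsmul_eq_mul, pow_succ]
        have h1 : (0 : ℝ) < (B : ℝ) ^ T := by positivity
        have h2 : (T : ℝ) * (B : ℝ) ^ T ≤ (B : ℝ) ^ T * B := by nlinarith
        have h3 : (B : ℝ) ^ T * B * ∑ k ∈ range (T + 1), g k ≤ (B : ℝ) ^ T * B * 2 :=
          mul_le_mul_of_nonneg_left hsum (by positivity)
        have h4 : 0 < (B : ℝ) ^ T * B := by positivity
        linarith

end

end K3h61.CA
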